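import Pool.Agent.Run7.h876.LN.Main
import Pool.Agent.Run7.h876.PW.Gen
import Pool.Agent.Run7.h876.PW.AllC

/-!
# Curves on a surface: the conjecture of Birch and Swinnerton-Dyer on average

`K` is any number field, `Y ⊂ ℙⁿ` the surface `g = 0` over its integers, and `X_t ⊂ Y` the curve cut out by
`∑ t_j f_j`, with parameters `t_j` in the ring of integers: a linear system of curves on `Y`.  Outside of a
finite set of places, over the residue field and its quadratic extension, the surface has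
`q² + ρ q + O(√q)` points and the linear system has `e` base points, and over the quadratic extension a
member separates each point which is not a base point from any three others.  So `Y` is a surface whose
cohomology is algebraic, of Picard number `ρ`, and the Jacobian of the generic member has the rank
`r = ρ + e - 1`: the restrictions of the line bundles of `Y` and the base points.

For every integer `k` the mean value of the `k`-th power of the L-series of `X_t` over a large box converges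
to `ζ_K(s)^(-k r) ζ_K(2s - 1)^(k(k-1)/2) G(s)`, which continues past the centre `s = 1` and has there the order
`k r - k(k-1)/2`; for `k = 1` the order is `r`.  And the products of Birch and Swinnerton-Dyer
`B_Z = ∏_{Nv ≤ Z} #J_t(k_v) / Nv^g` at the centre have the law of the original conjecture, for `Z` up to a
power `H^(1/C)` of the size of the parameters: `log B_Z` is normal with mean `(r + 1/2) log log Z` and
variance `log log Z`.  For all members but a proportion `O((log log Z₀)^(-k))` the number `r` is the integer nearest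
to `log B_Z / log ζ_Z - 1/2` at once for all `Z` between `Z₀` and a power of `H`, and for a single `Z` for all but a
proportion `O((log Z)^(-1/8))` if `Z ≤ H^(1/(C log log H))`.
-/

set_option autoImplicit false
open NumberField IsDedekindDomain Filter Topology

namespace Pool.Agent.Results.MP_1d384c_nt.CurvesOnSurfaces

open Run7.h876.LN
open Run7.h876.LS (res)
open Run7.h876.EN (mean kp)
open Run7.h876.MM (kv)
open Run7.h9.BS (prop Phi zetaProd)

/-- **The conjecture of Birch and Swinnerton-Dyer on average for the curves of a linear system on a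
surface.** -/
theorem result (K : Type) [Field K] [NumberField K] (J : Type) [Fintype J] [DecidableEq J] [Nonempty J] (L : Type) (n d : ℕ)
    -- the surface, the linear system, and a multiple of the discriminant
    (g : L → MvPolynomial (Fin (n + 1)) (𝓞 K)) (hg : ∀ l, ∃ d, (g l).IsHomogeneous d)
    (f : J → MvPolynomial (Fin (n + 1)) (𝓞 K)) (hf : ∀ j, (f j).IsHomogeneous d)
    (Δ : MvPolynomial J (𝓞 K)) (hΔ : Δ ≠ 0)
    -- the points of the surface and the base points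
    (S : Set (HeightOneSpectrum (𝓞 K))) (hS : S.Finite) (ρ e r : ℕ) (hr : ρ + e = r + 1) (C₀ : ℝ)
    (hsep : ∀ v, v ∉ S → ∀ (E : Type) [Field E] [Fintype E] [Algebra (kv v) E], Module.finrank (kv v) E = 2 →
      SepY g f ((algebraMap (kv v) E).comp (res v)))
    (hY : ∀ v, v ∉ S → ∀ (E : Type) [Field E] [Fintype E] [Algebra (kv v) E], Module.finrank (kv v) E ≤ 2 →
      |(ptsY g ((algebraMap (kv v) E).comp (res v)) : ℝ) - (Fintype.card E : ℝ) ^ 2 - ρ * Fintype.card E| ≤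
        C₀ * Real.sqrt (Fintype.card E))
    (hz : ∀ v, v ∉ S → ∀ (E : Type) [Field E] [Fintype E] [Algebra (kv v) E], Module.finrank (kv v) E ≤ 2 →
      ptsBase g f ((algebraMap (kv v) E).comp (res v)) = e)
    -- the eigenvalues of Frobenius
    (b : ℕ) (α : (J → 𝓞 K) → HeightOneSpectrum (𝓞 K) → Fin b → ℂ) (hα : ∀ t, IsFrob g f Δ b t (α t)) :
    -- the order at the centre of the mean of the powers of the L-series
    (∀ k κ : ℤ, 2 * κ = k * (k - 1) → ∃ G : ℂ → ℂ, DifferentiableOn ℂ G {s | 5 / 6 < s.re} ∧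
      (∀ x : ℝ, 5 / 6 < x → ∃ y : ℝ, 0 < y ∧ G x = y) ∧
      (∃ c : ℝ, 0 < c ∧ Tendsto (fun x : ℝ => ((x : ℂ) - 1) ^ (κ - k * r) *
        (dedekindZeta K x ^ (-(k * r)) * dedekindZeta K (2 * x - 1) ^ κ * G x)) (𝓝[>] 1) (𝓝 (c : ℂ))) ∧
      ∀ (ι : Type) [Fintype ι] [DecidableEq ι] (ω : Module.Basis ι ℤ (𝓞 K)) (δ : ℝ), 0 < δ → ∀ ε : ℝ, 0 < ε →
        ∃ M : ℕ, ∀ H : J → ℕ, (∀ j, M ≤ H j) → ∀ s : ℂ, 3 / 2 + δ ≤ s.re →
          ‖mean ω H {t | MvPolynomial.eval t Δ ≠ 0} (fun t => LSeries Δ t (α t) s ^ k) -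
            dedekindZeta K s ^ (-(k * r)) * dedekindZeta K (2 * s - 1) ^ κ * G s‖ ≤ ε) ∧
    ∀ (ι : Type) [Fintype ι] [DecidableEq ι] (ω : Module.Basis ι ℤ (𝓞 K)),
      -- the normal law of the products of Birch and Swinnerton-Dyer
      (∀ a ε : ℝ, 0 < ε → ∃ C Z₀ : ℕ, ∀ Z : ℕ, Z₀ ≤ Z → ∀ H : J → ℕ, (∀ j, Z ^ C ≤ H j) →
        |prop ω H {t | MvPolynomial.eval t Δ ≠ 0} (fun t => Real.log (bsdProduct Δ Z t (α t)) ≤
          (r + 1 / 2) * Real.log (zetaProd K Z) + a * Real.sqrt (Real.log (zetaProd K Z))) - Phi a| ≤ ε) ∧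
      -- large deviations
      (∀ a : ℝ, 0 < a → ∃ C : ℝ, 0 < C ∧ ∃ Z₀ : ℕ, ∀ Z : ℕ, Z₀ ≤ Z →
        ∀ H : J → ℕ, (∀ j, (Z : ℝ) ^ (C * Real.log (zetaProd K Z)) ≤ H j) →
        prop ω H {t | MvPolynomial.eval t Δ ≠ 0} (fun t => a * Real.log (zetaProd K Z) ≤
          |Real.log (bsdProduct Δ Z t (α t)) - (r + 1 / 2) * Real.log (zetaProd K Z)|) ≤ C * zetaProd K Z ^ (-(a ^ 2 / 2))) ∧
      (∀ k : ℕ, ∃ C : ℕ, ∃ A : ℝ, 0 < A ∧ ∃ Z₀ : ℕ, ∀ Z : ℕ, Z₀ ≤ Z → ∀ H : J → ℕ, (∀ j, Z ^ C ≤ H j) → ∀ a : ℝ, 0 < a →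
        prop ω H {t | MvPolynomial.eval t Δ ≠ 0} (fun t => a * Real.log (zetaProd K Z) ≤
          |Real.log (bsdProduct Δ Z t (α t)) - (r + 1 / 2) * Real.log (zetaProd K Z)|) ≤
            A / (a ^ (2 * k) * Real.log (zetaProd K Z) ^ k)) ∧
      -- all bounds `Z` up to a power of the sides at once
      (∀ δ : ℝ, 0 < δ → ∀ k : ℕ, ∃ C : ℕ, ∃ A : ℝ, 0 < A ∧ ∃ Z₁ : ℕ, ∀ Z₀ : ℕ, Z₁ ≤ Z₀ → ∀ H : J → ℕ,
        prop ω H {t | MvPolynomial.eval t Δ ≠ 0} (fun t => ∃ Z : ℕ, Z₀ ≤ Z ∧ (∀ j, Z ^ C ≤ H j) ∧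
          Real.log (zetaProd K Z) ^ (1 / 2 + δ) <
            |Real.log (bsdProduct Δ Z t (α t)) - (r + 1 / 2) * Real.log (zetaProd K Z)|) ≤
              A / Real.log (zetaProd K Z₀) ^ k) ∧
      -- the number `r` is read off from the products
      (∀ k : ℕ, ∃ C : ℕ, ∃ A : ℝ, 0 < A ∧ ∃ Z₁ : ℕ, ∀ Z₀ : ℕ, Z₁ ≤ Z₀ → ∀ H : J → ℕ,
        prop ω H {t | MvPolynomial.eval t Δ ≠ 0} (fun t => ∃ Z : ℕ, Z₀ ≤ Z ∧ (∀ j, Z ^ C ≤ H j) ∧
          round (Real.log (bsdProduct Δ Z t (α t)) / Real.log (zetaProd K Z) - 1 / 2) ≠ r) ≤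
            A / Real.log (zetaProd K Z₀) ^ k) ∧
      (∃ C : ℝ, 0 < C ∧ ∃ Z₀ : ℕ, ∀ Z : ℕ, Z₀ ≤ Z →
        ∀ H : J → ℕ, (∀ j, (Z : ℝ) ^ (C * Real.log (zetaProd K Z)) ≤ H j) →
        prop ω H {t | MvPolynomial.eval t Δ ≠ 0} (fun t =>
          round (Real.log (bsdProduct Δ Z t (α t)) / Real.log (zetaProd K Z) - 1 / 2) ≠ r) ≤
            C * zetaProd K Z ^ (-(1 / 8) : ℝ)) := by
  have H : Hyp g f S d ρ e r |C₀| := ⟨hg, hf, hr, hsep, fun v hv E _ _ _ hE => (hY v hv E hE).trans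
    (mul_le_mul_of_nonneg_right (le_abs_self _) (Real.sqrt_nonneg _)), hz⟩
  have hC : 0 ≤ |C₀| := abs_nonneg _
  obtain ⟨c0, hc0⟩ := exists_ne hΔ
  refine ⟨fun k κ hκ => ?_, fun ι _ _ ω => ?_⟩
  · have hM := maj_N g f Δ hα hΔ hS hC H (k : ℂ)
    have hκc : kp (k : ℂ) = (κ : ℂ) := by
      have : (2 : ℂ) * κ = k * (k - 1) := by exact_mod_cast hκ
      unfold kp
      rw [← this]
      ring
    obtain ⟨c, hc⟩ : ∃ c : Fin 2 → ℤ, c = ![-(k * r), κ] := ⟨_, rfl⟩
    have hn : (![-((k : ℂ) * ((r : ℝ) : ℂ)), kp (k : ℂ)] : Fin 2 → ℂ) = fun l => (c l : ℂ) := by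
      funext l
      fin_cases l
      · simp [hc]
      · simp [hc, hκc]
    have hn2 : (fun l => (c l : ℂ)) = fun l => (((c l : ℤ) : ℝ) : ℂ) := by funext l; simp
    rw [hn] at hM
    have hh : (LDN g f Δ hα).h = ((0 : ℕ) : ℝ) + 1 / 2 := by show (1 / 2 : ℝ) = ((0 : ℕ) : ℝ) + 1 / 2; norm_num
    have hA := Run7.h876.GN.adm_second (LDN g f Δ hα) 0 hh
    have hh' : (LDN g f Δ hα).h = 1 / 2 := rfl
    rw [Nat.cast_zero, zero_add] at hA hM
    set G := Run7.h876.GN.GG (LDN g f Δ hα) (Run7.h876.GN.e2 0) Run7.h876.GN.f2 k (fun l => (c l : ℂ)) with hG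
    have hGd : DifferentiableOn ℂ G {s | (5 / 6 : ℝ) < s.re} := Run7.h876.GN.GG_diff hA hM
    have hGr : ∀ x : ℝ, (5 / 6 : ℝ) < x → ∃ y : ℝ, 0 < y ∧ G x = y := by
      intro x hx
      have h1 := Run7.h876.GN.GG_real (A := LDN g f Δ hα) (e := Run7.h876.GN.e2 0) (f := Run7.h876.GN.f2) (σ₀ := 5 / 6)
        (k := (k : ℝ)) (c := fun l => ((c l : ℤ) : ℝ)) (by
          rw [← hn2, Complex.ofReal_intCast]
          exact hM) hx
      rw [← hn2, Complex.ofReal_intCast] at h1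
      exact h1
    have hprod : ∀ g : Fin 2 → ℤ → ℂ, ∏ l, g l (c l) = g 0 (-(k * r)) * g 1 κ := by
      intro g
      rw [Fin.prod_univ_two, hc]
      rfl
    refine ⟨G, hGd, hGr, ?_, fun ι _ _ ω δ hδ ε hε => ?_⟩
    · obtain ⟨c', hc', h⟩ := Run7.h876.LS.centre_order (K := K) 0 (G := G) (by rw [Nat.cast_zero, zero_add]; exact hGd)
        (by rw [Nat.cast_zero, zero_add]; exact hGr) (-(k * r)) κ
      refine ⟨c', hc', ?_⟩
      simp only [Nat.cast_zero, zero_add, mul_zero, sub_zero] at h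
      exact h
    · obtain ⟨Cb, hCb, hth⟩ := Run7.h876.LS.thin_of_poly ω Δ c0 hc0 {t | MvPolynomial.eval t Δ ≠ 0} (fun t ht => ht)
      obtain ⟨M, hM'⟩ := Run7.h876.GN.part1 ω hA hM hth (σ := 3 / 2 + δ)
        (by rw [hh']; linarith) (by linarith) (fun l => by
          fin_cases l
          · show 1 < ((1 : ℕ) : ℝ) * (3 / 2 + δ) - ((0 : ℕ) : ℝ)
            push_cast; linarith
          · show 1 < ((2 : ℕ) : ℝ) * (3 / 2 + δ) - ((2 * 0 + 1 : ℕ) : ℝ)
            push_cast; linarith) hε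
      refine ⟨M, fun H hH s hss => ?_⟩
      have h := hM' H hH s hss
      rw [hprod (fun l z => dedekindZeta K (Run7.h876.GN.f2 l * s - Run7.h876.GN.e2 0 l) ^ z)] at h
      have e0 : ((Run7.h876.GN.f2 0 : ℕ) : ℂ) * s - ((Run7.h876.GN.e2 0 0 : ℕ) : ℂ) = s := by
        show ((1 : ℕ) : ℂ) * s - ((0 : ℕ) : ℂ) = s
        push_cast; ring
      have e1 : ((Run7.h876.GN.f2 1 : ℕ) : ℂ) * s - ((Run7.h876.GN.e2 0 1 : ℕ) : ℂ) = 2 * s - 1 := by
        show ((2 : ℕ) : ℂ) * s - ((2 * 0 + 1 : ℕ) : ℂ) = 2 * s - 1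
        push_cast; ring
      rw [e0, e1] at h
      have e' : (fun t => LSeries Δ t (α t) s ^ k) = fun t => Run7.h876.GN.LL (LDN g f Δ hα) t s ^ k := by
        funext t
        rw [LSeries_eq' g f Δ hα t (by linarith)]
      rw [e']
      exact h
  · obtain ⟨Cb, hCb, hth⟩ := Run7.h876.LS.thin_of_poly ω Δ c0 hc0 {t | MvPolynomial.eval t Δ ≠ 0} (fun t ht => ht)
    obtain ⟨𝓛, h𝓛⟩ : ∃ 𝓛, 𝓛 = dataN g f Δ hα hΔ hS hC H := ⟨_, rfl⟩
    have hB : ∀ Z t, bsdProduct Δ Z t (α t) = Real.exp (𝓛.W Z t) := fun Z t => by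
      rw [h𝓛]; exact bsd_eq g f Δ hα hΔ hS hC H Z t
    have hm : 𝓛.m = r + 1 / 2 := by rw [h𝓛]; rfl
    have hD : 𝓛.D = 1 := by rw [h𝓛]; rfl
    have hδ : 𝓛.m = ((r : ℤ) : ℝ) + 1 / 2 := by rw [hm]; push_cast; ring
    have hA : (0 : ℝ) < 4 * b + 1 := by positivity
    have hlam : ∀ v t, |𝓛.lam v t| ≤ (4 * b + 1) / Real.sqrt (Run7.h876.MM.nv v) := by
      intro v t
      rw [h𝓛]
      refine (Run7.h876.PW.Al.lamOf_le (by positivity) (by exact_mod_cast Run7.h876.MM.two_le_nv v) _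
        (trN_bound g f Δ hα v t)).trans ?_
      have := Run7.h876.MM.nv_pos v
      gcongr
      linarith
    refine ⟨fun a ε hε => ?_, fun a ha => ?_, fun k => ?_, fun δ hδ' k => ?_, fun k => ?_, ?_⟩
    · have h := Run7.h876.PW.pw_clt ω 𝓛 (fun Z t => bsdProduct Δ Z t (α t)) hB hCb hth a hε
      rw [hm, hD] at h
      simp only [one_mul] at h
      exact h
    · have h := Run7.h876.PW.pw_tail ω 𝓛 (fun Z t => bsdProduct Δ Z t (α t)) hB hth ha
      rw [hm, hD] at h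
      simp only [mul_one] at h
      exact h
    · have h := Run7.h876.PW.pw_tail_pow ω 𝓛 (fun Z t => bsdProduct Δ Z t (α t)) hB hth k
      rw [hm] at h
      exact h
    · have h := Run7.h876.PW.Al.pw_all ω 𝓛 (fun Z t => bsdProduct Δ Z t (α t)) hB hth hA hlam hδ' k
      rw [hm] at h
      exact h
    · exact Run7.h876.PW.Al.pw_all_round ω 𝓛 (fun Z t => bsdProduct Δ Z t (α t)) hB hth hA hlam (r : ℤ) (1 / 2) hδ k
    · have h := Run7.h876.PW.pw_round ω 𝓛 (fun Z t => bsdProduct Δ Z t (α t)) hB hth (r : ℤ) (1 / 2) hδ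
      rw [hD] at h
      simp only [mul_one] at h
      exact h

end Pool.Agent.Results.MP_1d384c_nt.CurvesOnSurfaces
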