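import Pool.Agent.Run7.h784.JP.Fam

/-!
# The ranks of all quadratic twists of a product of hyperelliptic Jacobians of any genera over `k(t)`

Let `k` be a finite field of odd characteristic with `q` elements and `K = k(t)`. Let `n ≥ 1` and, for
`i = 1, ..., n`, let `f_i` in `k[t][x]` be monic of degree `2 g_i + 1` in `x`, `g_i ≥ 1`, without a term
in `x ^ (2 g_i)`, the coefficient of `x ^ j` of degree at most `2 N_i (2 g_i + 1 - j)` in `t`, `N_i ≥ 1`,
such that the discriminants of the `f_i` are squarefree and pairwise coprime and the reductions of the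
`f_i` at infinity are irreducible. Let `A` be the abelian variety `J_1 × ⋯ × J_n` over `K`, `J_i` the
Jacobian of the curve `y ^ 2 = f_i(x)` of genus `g_i`, and, for `D` in `k[t]`, `A_D` its quadratic twist,
the product of the Jacobians `J_{i,D}` of the curves `D y ^ 2 = f_i(x)`.

Theorem. Fix `k`, the `f_i` and `u ≠ 0` in `k`, and let `D` run through the squarefree polynomials of
degree `m` with leading coefficient `u` which are prime to the discriminants; `m` tends to infinity.
1. These `D` are a positive proportion of all the polynomials of degree `m`. For all of them `A_D(K)` has no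
   points of order two, `rank A_D(K) = log_2 (A_D(K) : 2 A_D(K))`, and the order of the 2-Selmer group
   `Sel_2(A_D)` is `2 ^ rank * #Sha(A_D)[2]`.
2. (Rank and the Tate-Shafarevich group.) For at least `0.2097 ^ n` of all the `D` (asymptotically: for a
   larger proportion) the group `A_D(K)` is uniquely divisible by two, that is finite of odd order, and
   the 2-primary part of the Tate-Shafarevich group of `A_D` is zero.
3. (Average rank.) The average rank of the groups `A_D(K)` is at most `1.2646 n` for all large `m`.
4. (Joint law.) The dimensions `s_i(D)` of the 2-Selmer groups of the `J_{i,D}` are asymptotically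
   independent, each with the law of Poonen and Rains: `(s_1(D), ..., s_n(D)) = (d_1, ..., d_n)` for the
   proportion `α(d_1) ⋯ α(d_n)` of the `D`, `α(d)` proportional to `∏_{i ≤ d} 2 / (2 ^ i - 1)`.
5. (All moments.) The average of every function of exponential growth of this vector tends to its
   expectation for the joint law. In particular the average order of `Sel_2(A_D)` tends to `3 ^ n`.
6. (The family is large.) If the characteristic is larger than `2 g + 1`, then for every nonzero `Δ` (the
   product of the discriminants of the other `f_i`) a positive proportion of all the `f` of genus `g` and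
   height `2 N`, `N` to infinity, is in the family with discriminant prime to `Δ`.

So, with the theorem of Kato and Trihan, the equality `ord_{s = 1} L(s, A_D) = rank A_D(K)` holds, with
both sides zero, for at least `0.2097 ^ n` of all the quadratic twists `A_D` of the abelian variety `A`
of dimension `g_1 + ⋯ + g_n`, in the natural ordering by the degree of `D` and over a fixed finite field
`k` (and also for all abelian varieties isogenous to products of powers of these `J_{i,D}`).

`J(L)` is the Picard group of the affine coordinate ring `L[x, y] / (y ^ 2 - F)`, because the only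
point at infinity of the curve is rational, and Selmer and Tate-Shafarevich groups are given by
continuous cocycles of the absolute Galois group of `K` with values in `J(K^sep)`
(`Pool/Agent/N352/JB/ShaDef.lean`, `Pool/Agent/Run7/h286/PL/SelDef.lean`). The curve `D y ^ 2 = f(x)` has
the equation `y ^ 2 = F(x)` with `F = f.scaleRoots D = D ^ (2 g + 1) f(x / D)`.

## Proof

Project TG (helper784; `Results/MP_60d5ce_nt/PositiveProportionOfTwists.lean`) describes how the 2-Selmer
group changes if one more prime `Q` is added to `D`. The random process of adding primes is, after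
averaging over the local classes, a Markov chain with the law of Poonen and Rains as stationary law;
with the estimates of Weil for the curves of factorisations this gives the exact law for one curve
(project PRL, helper286, `Run7/h286/PL`) and, with bounds for all exponential moments, all the means.
For several curves: the geometric Galois closures of the `f_i` are linearly disjoint, because the
discriminants are pairwise coprime: their joint geometric Galois group is the product of the symmetric
groups (`Run7/h784/JP/JFULL.lean`: the inertia groups over the zeros of the discriminant of `f_i` act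
trivially on the roots of the other `f_j`). For one index `i` the primes `Q` with at most two primes of
`K(θ_i)` and exactly one prime of `K(θ_j)`, `j ≠ i`, over them change only the `i`-th Selmer group; the
average over the number of these primes of large degree in `D` replaces the test function by its average
for the limit law in the variable `i` (JITR), and this is done for one index after the other (JLAW).

Project JPL (helper784) with parts by helpers 56 (JMODEL), 303 (JSTP, JITR), 518 (JW), 803 (JNSQ, JNSQ2),
908 (JKILL2, JLAST2, JNAT, `many`), 957 (JS1, JS0); project PRL (helper286) with parts by helpers 160,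
209, 212, 215, 216, 270, 303, 382, 416, 502, 547, 704, 711, 760, 803, 824, 847, 886, 908, 957; project TG.
-/

set_option autoImplicit false
set_option linter.all false

namespace Pool.Agent.Results.MP_1d384c_nt.JointSelmerLaw

open Polynomial Filter IsDedekindDomain
open scoped Classical Topology
open Pool.Agent.Y713.Jac (J)
open Pool.Agent.N352.Sha (UniquelyDivisible ShaTrivial)
open Run7.h286.SelDef (Selmer selmerRank ShaTwo twoIndex NoTwoTorsion)

section groups

variable (k : Type) [Field k] {K : Type} [Field K] [Algebra k[X] K] [IsFractionRing k[X] K] {n : ℕ}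

/-- The group `A(K)` for the abelian variety `A = J_1 × ⋯ × J_n`, `J_i` the Jacobian of
`y ^ 2 = F_i(x)`. -/
abbrev Points (F : Fin n → K[X]) : Type := ∀ i, J 2 (F i) K

/-- The 2-Selmer group of `A`. -/
def SelmerA (F : Fin n → K[X]) : Type := ∀ i, Selmer k (F i)

/-- The group `Sha(A)[2]`. -/
def ShaTwoA (F : Fin n → K[X]) : Type := ∀ i, ShaTwo k (F i)

/-- The binary logarithm of `(A(K) : 2 A(K))`, which is the rank of the finitely generated group `A(K)`
if there are no points of order two. -/
noncomputable def rank (F : Fin n → K[X]) : ℕ := Nat.log 2 (twoIndex (Points F))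

/-- `A(K)` has no points of order two, `A(K) / 2 A(K)` has `2 ^ rank` elements, and the order of the
2-Selmer group of `A` is `2 ^ rank` times the order of `Sha(A)[2]`. -/
structure Regular (F : Fin n → K[X]) : Prop where
  torsion : NoTwoTorsion (Points F)
  index : twoIndex (Points F) = 2 ^ rank F
  order : Nat.card (SelmerA k F) = 2 ^ rank F * Nat.card (ShaTwoA k F)
  order_ne : Nat.card (SelmerA k F) ≠ 0

/-- The group `A(K)` is uniquely divisible by two and the 2-primary part of the Tate-Shafarevich group
of `A` is zero. -/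
structure NoTwoPart (F : Fin n → K[X]) : Prop where
  points : UniquelyDivisible 2 (Points F)
  sha : ∀ i, ShaTrivial 2 (F i) k[X]

end groups

/-- The weights `∏_{i=1}^d 2 / (2 ^ i - 1)` of the law of Poonen and Rains. -/
noncomputable def weight (d : ℕ) : ℝ := ∏ i ∈ Finset.range d, (2 : ℝ) / (2 ^ (i + 1) - 1)

/-- The law of Poonen and Rains: the probability that the dimension is `d`. -/
noncomputable def alpha (d : ℕ) : ℝ := weight d / ∑' j, weight j

section family

variable {k : Type} [Field k]

/-- The discriminant of the monic polynomial `f` of degree `2 g + 1` in `x` over `k[t]`, up to the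
sign: the resultant of `f` and its derivative. -/
noncomputable def discriminant (g : ℕ) (f : k[X][X]) : k[X] :=
  f.resultant (derivative f) (2 * g + 1) (2 * g)

/-- `f = x ^ (2 g + 1) + f_{2 g - 1} x ^ (2 g - 1) + ... + f_0` with `deg f_j ≤ M (2 g + 1 - j)`. -/
structure HasHeight (g M : ℕ) (f : k[X][X]) : Prop where
  monic : f.Monic
  degree : f.natDegree = 2 * g + 1
  trace : f.coeff (2 * g) = 0
  height : ∀ j ≤ 2 * g, (f.coeff j).natDegree ≤ M * (2 * g + 1 - j)

/-- The reduction of `f` at infinity, the polynomial `x ^ (2 g + 1) + ∑ r_j x ^ j` over `k` where `r_j`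
is the coefficient of `t ^ (M (2 g + 1 - j))` in `f_j`. -/
noncomputable def atInfinity (g M : ℕ) (f : k[X][X]) : k[X] :=
  X ^ (2 * g + 1) + ∑ j ∈ Finset.range (2 * g + 1), C ((f.coeff j).coeff (M * (2 * g + 1 - j))) * X ^ j

/-- The family of curves: squarefree discriminant, irreducible reduction at infinity. -/
structure InFamily (g N : ℕ) (f : k[X][X]) : Prop extends HasHeight g (2 * N) f where
  inert : Irreducible (atInfinity g (2 * N) f)
  squarefree : Squarefree (discriminant g f)

/-- A positive proportion of the polynomials `f` of genus `g` and height `2 N` is in the family and has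
discriminant prime to `Δ`, as `N → ∞`. -/
def PositiveProportion (g : ℕ) (Δ : k[X]) : Prop :=
  ∃ c : ℝ, 0 < c ∧ ∀ᶠ N : ℕ in atTop, 0 < {f : k[X][X] | HasHeight g (2 * N) f}.ncard ∧
    c * ({f : k[X][X] | HasHeight g (2 * N) f}.ncard : ℝ) ≤
      ({f : k[X][X] | InFamily g N f ∧ IsCoprime Δ (discriminant g f)}.ncard : ℝ)

variable {n : ℕ}

/-- The squarefree polynomials of degree `m` with leading coefficient `u` which are prime to all the
discriminants. -/
def Twists (g : Fin n → ℕ) (f : Fin n → k[X][X]) (u : k) (m : ℕ) : Set k[X] :=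
  {D | D.leadingCoeff = u ∧ D.natDegree = m ∧ Squarefree D ∧
    ∀ i, IsCoprime D (discriminant (g i) (f i))}

variable (K : Type) [Field K] [Algebra k[X] K] [IsFractionRing k[X] K]

/-- The monic equations `y ^ 2 = D ^ (2 g_i + 1) f_i(x / D)` of the quadratic twists `D y ^ 2 = f_i(x)`
over `K = k(t)`; the product of their Jacobians is `A_D`. -/
noncomputable def twist (f : Fin n → k[X][X]) (D : k[X]) (i : Fin n) : K[X] :=
  ((f i).scaleRoots D).map (algebraMap k[X] K)

/-- The dimensions `s_i(D)` of the 2-Selmer groups of the factors of `A_D`. -/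
noncomputable def dims (f : Fin n → k[X][X]) (D : k[X]) (i : Fin n) : ℕ :=
  selmerRank k (twist K f D i)

variable (g : Fin n → ℕ) (f : Fin n → k[X][X]) (u : k)

/-- The mean of `F` over the twists of degree `m` tends to `l`. -/
def MeanTendsTo (F : k[X] → ℝ) (l : ℝ) : Prop :=
  Tendsto (fun m => (∑ᶠ D ∈ Twists g f u m, F D) / ((Twists g f u m).ncard : ℝ)) atTop (𝓝 l)

/-- For all large `m` the property `NoTwoPart` holds for at least `0.2097 ^ n` of the twists. -/
def Often : Prop :=
  ∀ᶠ m : ℕ in atTop, (0.2097 : ℝ) ^ n * ((Twists g f u m).ncard : ℝ) ≤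
    (({D ∈ Twists g f u m | NoTwoPart k (twist K f D)} : Set k[X]).ncard : ℝ)

/-- For all large `m` the average rank of the twists is at most `1.2646 n`. -/
def AverageRank : Prop :=
  ∀ᶠ m : ℕ in atTop, ∑ᶠ D ∈ Twists g f u m, (rank (twist K f D) : ℝ) ≤
    1.2646 * n * ((Twists g f u m).ncard : ℝ)

/-- `s(D) = d` for the proportion `α(d_1) ⋯ α(d_n)` of the twists. -/
def HasLaw : Prop :=
  ∀ d : Fin n → ℕ, Tendsto (fun m => (({D ∈ Twists g f u m | dims K f D = d} : Set k[X]).ncard : ℝ) /
    ((Twists g f u m).ncard : ℝ)) atTop (𝓝 (∏ i, alpha (d i)))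

/-- The means of all the functions of at most exponential growth of `s(D)`. -/
def HasMeans : Prop :=
  ∀ φ : (Fin n → ℕ) → ℝ, (∃ C y : ℝ, ∀ d, |φ d| ≤ C * y ^ (∑ i, d i)) →
    MeanTendsTo g f u (fun D => φ (dims K f D)) (∑' d : Fin n → ℕ, φ d * ∏ i, alpha (d i))

/-- The theorem for the abelian variety `J_1 × ⋯ × J_n` and the leading coefficient `u`. -/
structure Statement : Prop where
  many : ∃ c : ℝ, 0 < c ∧ ∀ᶠ m : ℕ in atTop,
    c * (Nat.card k : ℝ) ^ m ≤ ((Twists g f u m).ncard : ℝ)
  each : ∀ (m : ℕ), ∀ D ∈ Twists g f u m, Regular k (twist K f D)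
  often : Often K g f u
  averageRank : AverageRank K g f u
  law : HasLaw K g f u
  means : HasMeans K g f u
  averageOrder : MeanTendsTo g f u (fun D => (Nat.card (SelmerA k (twist K f D)) : ℝ)) (3 ^ n)

end family

/-- The statements for one abelian variety. -/
theorem main (k : Type) [Field k] [Finite k] (h2 : (2 : k) ≠ 0) (K : Type) [Field K]
    [Algebra k[X] K] [IsFractionRing k[X] K] (n : ℕ) (hn : 1 ≤ n) (g N : Fin n → ℕ)
    (hg : ∀ i, 1 ≤ g i) (hN : ∀ i, 1 ≤ N i) (f : Fin n → k[X][X])
    (hf : ∀ i, InFamily (g i) (N i) (f i))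
    (hc : ∀ i j, i ≠ j → IsCoprime (discriminant (g i) (f i)) (discriminant (g j) (f j)))
    (u : k) (hu : u ≠ 0) : Statement K g f u := by
  have hf' : ∀ i, Run7.h784.JPH.InFamily (g i) (N i) (f i) := fun i =>
    ⟨⟨(hf i).monic, (hf i).degree, (hf i).trace, (hf i).height⟩, (hf i).inert, (hf i).squarefree⟩
  obtain ⟨m1, m2, m3, m4, m5, m6⟩ := Run7.h784.JPH.main Run7.h784.Fam.jfinm Run7.h547.PL.qid
    Run7.h160.PL.num Run7.h286.PL.fTRU Run7.h286.PL.fZER k h2 K n hn g N hg hN f hf' hc u hu
  have hfin : ∀ m, (Twists g f u m).Finite := fun m =>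
    (Run7.h875.TS.fin_deg k m).subset fun D hD => hD.2.1
  have hone : ∀ (m : ℕ), ∀ D ∈ Twists g f u m, ∀ i,
      Run7.h286.SelDef.Meaning k (twist K f D i) := fun m D hD i =>
    (Run7.h286.SelDef.one_tw ((hf' i).fm (hg i) (hN i) h2) K hu (m := m) (D := D)
      ⟨hD.1, hD.2.1, hD.2.2.1, hD.2.2.2 i⟩).2
  have hdims : ∀ D : k[X], dims K f D = Run7.h784.JPH.dims K f D := by
    intro D
    funext i
    show Nat.log 2 (Nat.card (Selmer k _)) = Nat.log 2 _
    rw [Run7.h286.SelDef.card_selmer k]
    rfl
  have hcard : ∀ D : k[X], Nat.card (SelmerA k (twist K f D)) =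
      ∏ i, Nat.card (Selmer k (twist K f D i)) := fun D => Nat.card_pi
  have horder : ∀ (m : ℕ), ∀ D ∈ Twists g f u m, Nat.card (SelmerA k (twist K f D)) =
      twoIndex (Points (twist K f D)) * Nat.card (ShaTwoA k (twist K f D)) := by
    intro m D hD
    have h1 : twoIndex (Points (twist K f D)) = ∏ i, twoIndex (J 2 (twist K f D i) K) :=
      Run7.h784.Fam.twoIndex_pi
    have h3 : Nat.card (ShaTwoA k (twist K f D)) = ∏ i, Nat.card (ShaTwo k (twist K f D i)) :=
      Nat.card_pi
    rw [hcard, h1, h3, ← Finset.prod_mul_distrib]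
    exact Finset.prod_congr rfl fun i _ => (hone m D hD i).sequence
  have hpow : ∀ (m : ℕ), ∀ D ∈ Twists g f u m, Nat.card (SelmerA k (twist K f D)) =
      2 ^ ∑ i, dims K f D i := by
    intro m D hD
    rw [hcard, ← Finset.prod_pow_eq_pow_sum]
    exact Finset.prod_congr rfl fun i _ => (hone m D hD i).order
  have hindex : ∀ (m : ℕ), ∀ D ∈ Twists g f u m,
      twoIndex (Points (twist K f D)) = 2 ^ rank (twist K f D) := by
    intro m D hD
    have h1 : twoIndex (Points (twist K f D)) ∣ 2 ^ ∑ i, dims K f D i := by
      rw [← hpow m D hD, horder m D hD]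
      exact dvd_mul_right _ _
    obtain ⟨j, _, hj⟩ := (Nat.dvd_prime_pow Nat.prime_two).1 h1
    unfold rank
    rw [hj, Nat.log_pow (by norm_num)]
  have hrank : ∀ (m : ℕ), ∀ D ∈ Twists g f u m, rank (twist K f D) ≤ ∑ i, dims K f D i := by
    intro m D hD
    have h1 : 2 ^ rank (twist K f D) ∣ 2 ^ ∑ i, dims K f D i := by
      rw [← hindex m D hD, ← hpow m D hD, horder m D hD]
      exact dvd_mul_right _ _
    exact (Nat.pow_dvd_pow_iff_le_right (by norm_num)).1 h1
  have hmeans : HasMeans K g f u := by
    intro φ hφ
    refine (m3 φ hφ).congr fun m => ?_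
    congr 1
    exact finsum_mem_congr rfl fun D _ => by rw [hdims D]
  have hQ := Run7.h547.PL.qid
  have hNUM := Run7.h160.PL.num
  have hW : 0 < ∑' j, Run7.h286.PL.wt j := by
    have := (abs_lt.1 hNUM.2.2.2.1).1
    linarith
  refine ⟨m1, fun m D hD => ⟨fun P hP => funext fun i => (hone m D hD i).torsion (P i)
    (congrFun hP i), hindex m D hD, ?_, ?_⟩, ?_, ?_, fun d => ?_, hmeans, ?_⟩
  · rw [horder m D hD, hindex m D hD]
  · rw [hpow m D hD]
    positivity
  · filter_upwards [m6] with m hm
    refine hm.trans ?_
    have hsub : ({D ∈ Twists g f u m | ∀ i, Run7.h784.JPH.NoTwoPart k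
        (Run7.h784.JPH.twist K (f i) D)} : Set k[X]) ⊆
        ({D ∈ Twists g f u m | NoTwoPart k (twist K f D)} : Set k[X]) := by
      rintro D ⟨hD, h⟩
      refine ⟨hD, ⟨⟨fun x y hxy => funext fun i => (h i).1.1 (congrFun hxy i), fun y => ?_⟩,
        fun i => (h i).2⟩⟩
      choose x hx using fun i => (h i).1.2 (y i)
      exact ⟨x, funext hx⟩
    exact_mod_cast Set.ncard_le_ncard hsub ((hfin m).subset (Set.sep_subset _ _))
  · -- the average rank
    have h := hmeans (fun d => ∑ i, (d i : ℝ)) ⟨1, 2, fun d => by
      rw [one_mul, abs_of_nonneg (Finset.sum_nonneg fun i _ => Nat.cast_nonneg _)]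
      have h1 : ((∑ i, d i : ℕ) : ℝ) ≤ 2 ^ (∑ i, d i) := by
        exact_mod_cast (Nat.lt_two_pow_self (n := ∑ i, d i)).le
      push_cast at h1
      exact h1⟩
    have hα : ∀ d, 0 ≤ alpha d := fun d => div_nonneg (hNUM.1 d).le hW.le
    have hs1 : Summable alpha := hNUM.2.1.div_const _
    have ht1 : ∑' d, alpha d = 1 := by
      show ∑' d, Run7.h286.PL.wt d / ∑' j, Run7.h286.PL.wt j = 1
      rw [tsum_div_const]
      exact div_self hW.ne'
    have hE : ∑' d : ℕ, (d : ℝ) * alpha d = Run7.h286.PL.Lw fun d => (d : ℝ) := by
      show ∑' d : ℕ, (d : ℝ) * (Run7.h286.PL.wt d / ∑' j, Run7.h286.PL.wt j) =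
        (∑' d, Run7.h286.PL.wt d * (d : ℝ)) / ∑' j, Run7.h286.PL.wt j
      rw [← tsum_div_const]
      exact tsum_congr fun d => by ring
    have hs2 : Summable fun d : ℕ => (d : ℝ) * alpha d := by
      refine Summable.of_nonneg_of_le (fun d => mul_nonneg (Nat.cast_nonneg _) (hα d))
        (fun d => ?_) ((hQ.1 2).div_const (∑' j, Run7.h286.PL.wt j))
      have h1 : (d : ℝ) ≤ 2 ^ d := by exact_mod_cast (Nat.lt_two_pow_self (n := d)).le
      calc (d : ℝ) * alpha d ≤ 2 ^ d * alpha d := mul_le_mul_of_nonneg_right h1 (hα d)
        _ = _ := by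
          show (2 : ℝ) ^ d * (Run7.h286.PL.wt d / ∑' j, Run7.h286.PL.wt j) = _
          ring
    have hsum : ∑' d : Fin n → ℕ, (∑ i, (d i : ℝ)) * ∏ i, alpha (d i) =
        n * Run7.h286.PL.Lw fun d => (d : ℝ) := by
      have h1 : ∀ i : Fin n, ∀ d : Fin n → ℕ, (d i : ℝ) * ∏ j, alpha (d j) =
          ∏ j, (if j = i then (d j : ℝ) * alpha (d j) else alpha (d j)) := by
        intro i d
        rw [← Finset.mul_prod_erase _ _ (Finset.mem_univ i),
          ← Finset.mul_prod_erase Finset.univ
            (fun j => if j = i then (d j : ℝ) * alpha (d j) else alpha (d j)) (Finset.mem_univ i),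
          if_pos rfl, mul_assoc]
        congr 2
        exact Finset.prod_congr rfl fun j hj => by rw [if_neg (Finset.ne_of_mem_erase hj)]
      have hnn : ∀ i j : Fin n, ∀ x : ℕ, 0 ≤ (if j = i then (x : ℝ) * alpha x else alpha x) := by
        intro i j x
        split_ifs
        · exact mul_nonneg (Nat.cast_nonneg _) (hα x)
        · exact hα x
      have hss : ∀ i j : Fin n,
          Summable fun x : ℕ => (if j = i then (x : ℝ) * alpha x else alpha x) := by
        intro i j
        split_ifs
        · exact hs2
        · exact hs1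
      have h3 : ∀ i : Fin n, ∑' d : Fin n → ℕ, (d i : ℝ) * ∏ j, alpha (d j) =
          Run7.h286.PL.Lw fun d => (d : ℝ) := by
        intro i
        simp only [h1 i]
        rw [Run7.h784.JP.tsum_pi (fun j (x : ℕ) => if j = i then (x : ℝ) * alpha x else alpha x)
          (hnn i) (hss i), ← Finset.mul_prod_erase _ _ (Finset.mem_univ i)]
        have h6 : (∑' x : ℕ, if i = i then (x : ℝ) * alpha x else alpha x) =
            ∑' x : ℕ, (x : ℝ) * alpha x := tsum_congr fun x => if_pos rfl
        rw [h6, hE]
        have h4 : ∏ j ∈ Finset.univ.erase i,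
            ∑' x : ℕ, (if j = i then (x : ℝ) * alpha x else alpha x) = 1 := by
          refine Finset.prod_eq_one fun j hj => ?_
          have h5 : (fun x : ℕ => if j = i then (x : ℝ) * alpha x else alpha x) = alpha :=
            funext fun x => if_neg (Finset.ne_of_mem_erase hj)
          rw [h5, ht1]
        rw [h4, mul_one]
      have hsm : ∀ i ∈ (Finset.univ : Finset (Fin n)),
          Summable fun d : Fin n → ℕ => (d i : ℝ) * ∏ j, alpha (d j) := by
        intro i _
        simp only [h1 i]
        exact Run7.h784.JP.summable_pi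
          (fun j (x : ℕ) => if j = i then (x : ℝ) * alpha x else alpha x) (hnn i) (hss i)
      simp only [Finset.sum_mul]
      rw [Summable.tsum_finsetSum hsm]
      simp only [h3]
      rw [Finset.sum_const, Finset.card_univ, Fintype.card_fin, nsmul_eq_mul]
    rw [hsum] at h
    have hn' : (0 : ℝ) < n := by exact_mod_cast hn
    have hlt : n * (Run7.h286.PL.Lw fun d => (d : ℝ)) < 1.2646 * n := by
      have h1 := (abs_lt.1 hQ.2.2.2.2).2
      have h2 : (Run7.h286.PL.Lw fun d => (d : ℝ)) < 1.2646 := by linarith
      calc (n : ℝ) * (Run7.h286.PL.Lw fun d => (d : ℝ)) < n * 1.2646 :=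
            mul_lt_mul_of_pos_left h2 hn'
        _ = _ := mul_comm _ _
    filter_upwards [h.eventually (gt_mem_nhds hlt)] with m hm
    have h1 : ∑ᶠ D ∈ Twists g f u m, (rank (twist K f D) : ℝ) ≤
        ∑ᶠ D ∈ Twists g f u m, ∑ i, (dims K f D i : ℝ) := by
      rw [finsum_mem_eq_finite_toFinset_sum _ (hfin m), finsum_mem_eq_finite_toFinset_sum _ (hfin m)]
      refine Finset.sum_le_sum fun D hD => ?_
      have h3 := hrank m D ((hfin m).mem_toFinset.1 hD)
      calc (rank (twist K f D) : ℝ) ≤ ((∑ i, dims K f D i : ℕ) : ℝ) := by exact_mod_cast h3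
        _ = _ := by push_cast; rfl
    refine h1.trans ?_
    rcases Nat.eq_zero_or_pos (Twists g f u m).ncard with h6 | h6
    · have h7 : Twists g f u m = ∅ := (Set.ncard_eq_zero (hfin m)).1 h6
      rw [h7]
      simp
    · have h7 : (0 : ℝ) < ((Twists g f u m).ncard : ℝ) := by exact_mod_cast h6
      rw [div_lt_iff₀ h7] at hm
      exact hm.le
  · -- the law
    have h1 : (fun m => (({D ∈ Twists g f u m | dims K f D = d} : Set k[X]).ncard : ℝ) /
        ((Twists g f u m).ncard : ℝ)) =
        fun m => (({D ∈ Run7.h784.JPH.Twists g f u m | Run7.h784.JPH.dims K f D = d} :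
          Set k[X]).ncard : ℝ) / ((Run7.h784.JPH.Twists g f u m).ncard : ℝ) := by
      funext m
      have h2 : ({D ∈ Twists g f u m | dims K f D = d} : Set k[X]) =
          {D ∈ Run7.h784.JPH.Twists g f u m | Run7.h784.JPH.dims K f D = d} := by
        ext D
        rw [Set.mem_setOf_eq, Set.mem_setOf_eq, hdims D]
        rfl
      rw [h2]
      rfl
    rw [h1]
    exact m4 d
  · -- the average order
    refine m5.congr fun m => ?_
    congr 1
    refine finsum_mem_congr rfl fun D hD => ?_
    rw [hcard]
    push_cast
    refine Finset.prod_congr rfl fun i _ => ?_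
    rw [Run7.h286.SelDef.card_selmer k]
    rfl

/-- Let `k` be a finite field of odd characteristic with `q` elements, `K = k(t)`.
(I) Let `f_1, ..., f_n` be polynomials of the families of genus `g_i ≥ 1` and height `2 N_i`, `N_i ≥ 1`
(monic of degree `2 g_i + 1` over `k[t]` without next term, squarefree discriminant, irreducible
reduction at infinity) with pairwise coprime discriminants, and `u ≠ 0` in `k`. For `D` in `Twists`
(squarefree of degree `m` with leading coefficient `u`, prime to the discriminants) let `A_D` be the
product of the Jacobians of the curves `D y ^ 2 = f_i(x)`. Then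
(many) there are at least `c q ^ m` such `D`, `c > 0`, `m` large;
(each) for all of them `A_D(K)` has no points of order two, `A_D(K) / 2 A_D(K)` has `2 ^ rank` elements and
`#Sel_2(A_D) = 2 ^ rank * #Sha(A_D)[2]`;
(often) for all large `m` for at least `0.2097 ^ n` of the `D` the group `A_D(K)` is uniquely divisible by
two and the 2-primary part of the Tate-Shafarevich group of `A_D` is zero;
(averageRank) for all large `m` the average rank of the `A_D(K)` is at most `1.2646 n`;
(law) the proportion of the `D` for which the 2-Selmer groups of the factors of `A_D` have the dimensions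
`d_1, ..., d_n` tends to `α(d_1) ⋯ α(d_n)`;
(means) the average of every function of at most exponential growth of the dimensions tends to its
expectation for this law;
(averageOrder) the average order of `Sel_2(A_D)` tends to `3 ^ n`.
(II) If the characteristic is larger than `2 g + 1`, `g ≥ 1` and `Δ ≠ 0`, a positive proportion of
all `f` of genus `g` and height `2 N` is in the family and has discriminant prime to `Δ`. -/
theorem result (k : Type) [Field k] [Finite k] (h2 : (2 : k) ≠ 0)
    (K : Type) [Field K] [Algebra k[X] K] [IsFractionRing k[X] K] :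
    (∀ (n : ℕ), 1 ≤ n → ∀ (g N : Fin n → ℕ), (∀ i, 1 ≤ g i) → (∀ i, 1 ≤ N i) →
      ∀ f : Fin n → k[X][X], (∀ i, InFamily (g i) (N i) (f i)) →
      (∀ i j, i ≠ j → IsCoprime (discriminant (g i) (f i)) (discriminant (g j) (f j))) →
      ∀ u : k, u ≠ 0 → Statement K g f u) ∧
    ∀ g : ℕ, 1 ≤ g → ((2 * g + 1).factorial : k) ≠ 0 → ∀ Δ : k[X], Δ ≠ 0 →
      PositiveProportion g Δ := by
  refine ⟨fun n hn g N hg hN f hf hc u hu => main k h2 K n hn g N hg hN f hf hc u hu,
    fun g hg hp Δ hΔ => ?_⟩
  obtain ⟨c, hc, h⟩ := Run7.h784.Fam.many g hg hp Δ hΔ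
  refine ⟨c, hc, h.mono fun N hN => ?_⟩
  have h1 : {f : k[X][X] | HasHeight g (2 * N) f} =
      {f : k[X][X] | Run7.h784.JPH.HasHeight g (2 * N) f} := Set.ext fun f =>
    ⟨fun h => ⟨h.monic, h.degree, h.trace, h.height⟩, fun h => ⟨h.monic, h.degree, h.trace, h.height⟩⟩
  have h3 : {f : k[X][X] | InFamily g N f ∧ IsCoprime Δ (discriminant g f)} =
      {f : k[X][X] | Run7.h784.JPH.InFamily g N f ∧
        IsCoprime Δ (Run7.h784.JPH.discriminant g f)} := Set.ext fun f =>
    ⟨fun h => ⟨⟨⟨h.1.monic, h.1.degree, h.1.trace, h.1.height⟩, h.1.inert, h.1.squarefree⟩, h.2⟩,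
      fun h => ⟨⟨⟨h.1.monic, h.1.degree, h.1.trace, h.1.height⟩, h.1.inert, h.1.squarefree⟩, h.2⟩⟩
  rw [h1, h3]
  exact hN

end Pool.Agent.Results.MP_1d384c_nt.JointSelmerLaw
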