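import Mathlib
import Pool.Agent.Run7.h707.TG.FinA

/-!
# Abelian varieties of any dimension and any rank over the extensions of a fixed field

`K = ℚ(√-3)`.  Let `A = E_{c_1} × … × E_{c_g}` (`E_c : y² + c y = x³`, `g ≥ 1`) and `F₀ = K(∛b_1, …, ∛b_s)` (`s ≥ 0`)
with fixed cube-free elements `c_t`, `b_i` of `𝓞 K` that are congruent to third roots of unity modulo `3`
(every element prime to `3` is such an element times a cube), the `b_i` independent modulo cubes.  We suppose
only that every `c_t b^μ` that is a unit times a cube is a cube.  There is NO condition on the rank or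
on `Ш` of `A`.

For `r ≥ 1` let `a = (a_1, …, a_r)` run through ALL the `r`-tuples of elements of the same type, ordered by
the maximum of the norms, and let `F = F₀(∛a_1, …, ∛a_r)`.  A tuple is in the family if for all `t`, `μ`
and all `ν ≠ 0` the element `c_t b^μ a^ν` is not exceptional (a unit times a cube, or `1` modulo `3` with a
norm that is `1` modulo `9`) and `b^μ a^ν` is not a unit times a cube.

* The family has among ALL the tuples an exact density `κ ∈ 9^{-r} ℤ`, positive as soon as it is not empty.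
* The tuples of the family such that all the `E_{c_t b^μ a^ν}(K)`, `ν ≠ 0`, are finite and all the
  `Ш(E_{c_t b^μ a^ν} / K)[3^∞]` trivial have, among ALL the tuples, exactly the density `κ c₉^N`,
  `c₉ = ∏_{i ≥ 0} (1 - 3^{-(2 i + 1)}) > 0.639`, where `N` is the number of the classes of the triples
  `(t, μ, ν)`, two triples being related if the product of the first twist with the second one or with its
  square is a cube for all `a`.
* For all these tuples: `[F : F₀] = 3^r`; `L(A / F₀, s)` and `L(A / F, s)` have entire continuations with the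
  SAME order of vanishing at `s = 1`; `A(F)` has the same rank as `A(F₀)`; and if `3^m` kills
  `Ш(A / F₀)[3^∞]`, then `3^(max(s, m) + r)` kills `Ш(A / F)[3^∞]`.

So the rank conjecture for `A` over `F` is equivalent to the one over `F₀`: every abelian variety `A / F₀` that is
isogenous to such a product and satisfies the conjecture (with any rank) satisfies it over an exact
positive proportion of all the extensions of `F₀` of this type.  With the theorems of Gross-Zagier
and Kolyvagin (for `c_t ∈ ℤ` with `ord L(E_{c_t} / ℚ, s) ≤ 1`) this gives abelian varieties of every even rank.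

Instances: the intermediate Jacobians of the diagonal cubic threefolds and fivefolds (dimension `5`
and `21`), the powers of `E_c`, the Weil restrictions of the `E_c` from fields `K(∛c')` to `K` (isogenous to the
products of the twists), the Jacobians of the curves `y² + c y = x⁶`.

`L(E_c / F, s)` is Mathlib's `L`-series of a Weierstrass curve over a number field, and `L(A / F, s)` is the
product of the `L(E_{c_t} / F, s)`.

Proof: the law is the one of `TF/FixX.lean` for the twists by products of fixed and free elements (the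
headers of the files `Pool/Agent/Run7/h707/{TC,TD,TE,TF}/*.lean`); the comparison of `F` with `F₀` is in the
files `Pool/Agent/Run7/h707/TG/*.lean`.  For `g = 1` the result is my file `MP_32c55d_nt/RankStability`; new
here are the joint law for all the factors, the relations between their twists and the cubes.  The criterion
for the nonvanishing of `L(E_δ / K, 1)`, the descent and the large sieve are the joint work of the seats
named in the headers of the imported files.
-/

set_option autoImplicit false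

namespace Pool.Agent.Results.MP_1d384c_nt.ProductsOfAnyRank

open NumberField WeierstrassCurve
open Pool.Agent.TH841.NF.D (Sha)
open scoped Classical

/-- The curve `E_δ : y² + δ y = x³`. -/
def curve {F : Type} [Field F] (δ : F) : WeierstrassCurve F := ⟨0, 0, δ, 0, 0⟩

variable {K : Type} [Field K] [NumberField K]

/-- `b^μ = ∏ b i ^ μ i`, the exponents in `{0, 1, 2}`. -/
noncomputable def power {s : ℕ} (b : Fin s → 𝓞 K) (μ : Fin s → ZMod 3) : 𝓞 K :=
  ∏ i, b i ^ (μ i).val

/-- The `b i` are independent modulo cubes: no `b^μ`, `μ ≠ 0`, is a cube. -/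
def Independent {s : ℕ} (b : Fin s → 𝓞 K) : Prop :=
  ∀ μ : Fin s → ZMod 3, μ ≠ 0 → ∀ y : 𝓞 K, y ^ 3 ≠ power b μ

/-- `F₀` is generated over `K` by the cube roots `η i` of the `b i`. -/
def IsBase {s : ℕ} (b : Fin s → 𝓞 K) (F₀ : Type) [Field F₀] [Algebra K F₀] (η : Fin s → F₀) : Prop :=
  (∀ i, η i ^ 3 = algebraMap K F₀ (b i)) ∧
    ∀ S : Subfield F₀, (∀ x : K, algebraMap K F₀ x ∈ S) → (∀ i, η i ∈ S) → S = ⊤

/-- `F` is generated over `F₀` by the cube roots `θ k` of the `a k`. -/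
def IsExtension {r : ℕ} (a : Fin r → 𝓞 K) (F₀ F : Type) [Field F₀] [Field F] [Algebra K F]
    [Algebra F₀ F] (θ : Fin r → F) : Prop :=
  (∀ k, θ k ^ 3 = algebraMap K F (a k)) ∧
    ∀ S : Subfield F, (∀ x : F₀, algebraMap F₀ F x ∈ S) → (∀ k, θ k ∈ S) → S = ⊤

/-- `a` is cube-free and congruent to a third root of unity modulo `3`. -/
def Admissible (a : 𝓞 K) : Prop :=
  (∀ x : 𝓞 K, x ^ 3 ∣ a → IsUnit x) ∧ ∃ ω : 𝓞 K, ω ^ 3 = 1 ∧ (3 : 𝓞 K) ∣ a - ω

/-- `δ` is a unit times a cube. -/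
def UnitTimesCube (δ : 𝓞 K) : Prop := ∃ u x : 𝓞 K, IsUnit u ∧ δ = u * x ^ 3

/-- `δ` is `1` modulo `3` and its norm is `1` modulo `9`. -/
def IsOne (δ : 𝓞 K) : Prop := (3 : 𝓞 K) ∣ δ - 1 ∧ (9 : ℤ) ∣ Algebra.norm ℤ δ - 1

/-- `δ` is a unit times a cube, or `1` modulo `3` with a norm that is `1` modulo `9`. -/
def Exceptional (δ : 𝓞 K) : Prop :=
  (∃ u x : 𝓞 K, IsUnit u ∧ δ = u * x ^ 3) ∨
    ((3 : 𝓞 K) ∣ δ - 1 ∧ (9 : ℤ) ∣ Algebra.norm ℤ δ - 1)

/-- The fixed objects: the abelian variety `A = ∏ E_{c t}` of dimension `g` and the elements `b`. -/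
structure Data (K : Type) [Field K] (g s : ℕ) where
  c : Fin g → 𝓞 K
  b : Fin s → 𝓞 K

/-- The elements are admissible, the `b i` independent and every `c_t b^μ` that is a unit times a cube is
a cube. -/
def IsData {g s : ℕ} (D : Data K g s) : Prop :=
  (∀ t, Admissible (D.c t)) ∧ (∀ i, Admissible (D.b i)) ∧ Independent D.b ∧
    ∀ (t : Fin g) (μ : Fin s → ZMod 3), ¬ UnitTimesCube (D.c t * power D.b μ) ∨
      ∃ y : 𝓞 K, D.c t * power D.b μ = y ^ 3

/-- The triples `(t, μ, ν)`, `ν ≠ 0`. -/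
abbrev Index (g s r : ℕ) : Type := Fin g × (Fin s → ZMod 3) × {ν : Fin r → ZMod 3 // ν ≠ 0}

/-- Related triples: `ν + e ν' = 0` and `c_t b^μ (c_t' b^μ')^e` is a cube for `e = 1` or `e = 2`. -/
def Related {g s r : ℕ} (D : Data K g s) (p p' : Index g s r) : Prop :=
  ∃ e : ℕ, (e = 1 ∨ e = 2) ∧ (∀ i, p.2.2.1 i + e * p'.2.2.1 i = 0) ∧
    ∃ x : 𝓞 K, (D.c p.1 * power D.b p.2.1) * (D.c p'.1 * power D.b p'.2.1) ^ e = x ^ 3

/-- `R` is a system of representatives for the related triples. -/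
def IsSystem {g s r : ℕ} (D : Data K g s) (R : Finset (Index g s r)) : Prop :=
  (∀ p ∈ R, ∀ p' ∈ R, p ≠ p' → ¬ Related D p p') ∧ ∀ p, ∃ p' ∈ R, Related D p p'

/-- For `ν ≠ 0` no `c_t b^μ a^ν` is exceptional and no `b^μ a^ν` is a unit times a cube. -/
def InFamily {g s r : ℕ} (D : Data K g s) (a : Fin r → 𝓞 K) : Prop :=
  (∀ (t : Fin g) (μ : Fin s → ZMod 3) (ν : Fin r → ZMod 3), ν ≠ 0 →
    ¬ Exceptional (D.c t * power D.b μ * power a ν)) ∧
  ∀ (μ : Fin s → ZMod 3) (ν : Fin r → ZMod 3), ν ≠ 0 → ¬ UnitTimesCube (power D.b μ * power a ν)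

/-- `E_δ(K)` is finite and the `3`-primary part of `Ш(E_δ / K)` is trivial. -/
def FiniteAndTrivial (δ : 𝓞 K) : Prop :=
  Finite (curve (δ : K)).toAffine.Point ∧ ∀ (n : ℕ) (x : Sha (curve (δ : K))), 3 ^ n • x = 0 → x = 0

/-- The new twists: for `ν ≠ 0` all the `E_{c_t b^μ a^ν}(K)` are finite and the
`Ш(E_{c_t b^μ a^ν} / K)[3^∞]` trivial. -/
def NewTrivial {g s r : ℕ} (D : Data K g s) (a : Fin r → 𝓞 K) : Prop :=
  ∀ (t : Fin g) (μ : Fin s → ZMod 3) (ν : Fin r → ZMod 3), ν ≠ 0 →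
    FiniteAndTrivial (D.c t * power D.b μ * power a ν)

/-- Nine representatives of the classes: `ω (1 + 3 m)`, `ω³ = 1`, `m = 0, 1, 2`. -/
def nine (K : Type) [Field K] : Set (𝓞 K) :=
  {x | ∃ (ω : 𝓞 K) (m : ℕ), ω ^ 3 = 1 ∧ m < 3 ∧ x = ω * (1 + 3 * m)}

/-- The density of the family: the proportion of the tuples of representatives such that for `ν ≠ 0` no
`c_t b^μ a^ν` is `1` modulo `3` with a norm that is `1` modulo `9`. -/
noncomputable def kappa {g s : ℕ} (D : Data K g s) (r : ℕ) : ℝ :=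
  ({u : Fin r → 𝓞 K | (∀ i, u i ∈ nine K) ∧ ∀ (t : Fin g) (μ : Fin s → ZMod 3)
    (ν : Fin r → ZMod 3), ν ≠ 0 → ¬ IsOne (D.c t * power D.b μ * power u ν)}.ncard : ℝ) / 9 ^ r

/-- The number of the admissible tuples `a` of norm at most `X` with the property `P`. -/
noncomputable def number {r : ℕ} (X : ℕ) (P : (Fin r → 𝓞 K) → Prop) : ℝ :=
  ({a : Fin r → 𝓞 K | (∀ k, Algebra.norm ℤ (a k) ≤ X ∧ Admissible (a k)) ∧ P a}.ncard : ℝ)

/-- The property `P` has the density `d` among all the admissible tuples. -/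
def HasDensity {r : ℕ} (P : (Fin r → 𝓞 K) → Prop) (d : ℝ) : Prop :=
  Filter.Tendsto (fun X : ℕ => number X P / number X (fun _ : Fin r → 𝓞 K => True)) Filter.atTop
    (nhds d)

/-- The group `A(F)` for `A = ∏ E_{c t}`. -/
abbrev Points {g : ℕ} (c : Fin g → 𝓞 K) (F : Type) [Field F] [Algebra K F] : Type :=
  ∀ t, (curve (algebraMap K F (c t : 𝓞 K))).toAffine.Point

/-- `Λ` is entire and equal to `L(A / F, s)`, the product of the `L(E_{c t} / F, s)`, for `Re s > 3 / 2`. -/
def Continues {g : ℕ} (c : Fin g → 𝓞 K) (F : Type) [Field F] [NumberField F] [Algebra K F]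
    (Λ : ℂ → ℂ) : Prop :=
  Differentiable ℂ Λ ∧ ∀ s : ℂ, 3 / 2 < s.re →
    Λ s = ∏ t, (curve (algebraMap K F (c t : 𝓞 K))).LSeries s

/-- The rank conjecture for `A` over `F`: the order of `Λ` at `1` is the rank of `A(F)`. -/
def RankFormula {g : ℕ} (c : Fin g → 𝓞 K) (F : Type) [Field F] [NumberField F] [Algebra K F]
    (Λ : ℂ → ℂ) : Prop :=
  analyticOrderAt Λ 1 = (Module.finrank ℤ (Points c F) : ℕ∞)

/-- The `3`-primary part of `Ш(A / F) = ∏ Ш(E_{c t} / F)` is killed by `3^m`. -/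
def ShaKilled {g : ℕ} (c : Fin g → 𝓞 K) (F : Type) [Field F] [NumberField F] [Algebra K F]
    (m : ℕ) : Prop :=
  ∀ (t : Fin g) (n : ℕ) (x : Sha (curve (algebraMap K F (c t : 𝓞 K)))), 3 ^ n • x = 0 →
    3 ^ m • x = 0

/-- From `F₀` to `F`, for the continuations `Λ₀` and `Λ` of `L(A / F₀, s)` and `L(A / F, s)`: the same order at
`1`, the same rank (as cardinals), the rank conjecture over `F` if and only if over `F₀`, and if `3^m` kills
`Ш(A / F₀)[3^∞]`, then `3^(max(s, m) + r)` kills `Ш(A / F)[3^∞]`. -/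
def Stable {g s : ℕ} (r : ℕ) (D : Data K g s) (F₀ F : Type) [Field F₀] [NumberField F₀]
    [Algebra K F₀] [Field F] [NumberField F] [Algebra K F] (Λ₀ Λ : ℂ → ℂ) : Prop :=
  analyticOrderAt Λ 1 = analyticOrderAt Λ₀ 1 ∧
    Module.rank ℤ (Points D.c F) = Module.rank ℤ (Points D.c F₀) ∧
    (RankFormula D.c F Λ ↔ RankFormula D.c F₀ Λ₀) ∧
    ∀ m : ℕ, ShaKilled D.c F₀ m → ShaKilled D.c F (max s m + r)

/-- **Main theorem.** -/
theorem result (K : Type) [Field K] [NumberField K] [IsCyclotomicExtension {3} ℚ K] :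
    (0.639 : ℝ) < ∏' i : ℕ, (1 - (1 / 3 : ℝ) ^ (2 * i + 1)) ∧
    ∀ (g s : ℕ) (D : Data K g s), 0 < g → IsData D → ∀ r : ℕ,
      ((∃ a : Fin r → 𝓞 K, (∀ i, Admissible (a i)) ∧ InFamily D a) → 0 < kappa D r) ∧
      (∃ C : ℝ, 0 < C ∧ ∃ X₀ : ℕ, ∀ X : ℕ, X₀ ≤ X →
        C * (X : ℝ) ^ r ≤ number X (fun _ : Fin r → 𝓞 K => True)) ∧
      HasDensity (fun a : Fin r → 𝓞 K => InFamily D a) (kappa D r) ∧
      (∃ R : Finset (Index g s r), IsSystem D R) ∧
      (∀ R : Finset (Index g s r), IsSystem D R →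
        HasDensity (fun a : Fin r → 𝓞 K => InFamily D a ∧ NewTrivial D a)
          (kappa D r * (∏' i : ℕ, (1 - (1 / 3 : ℝ) ^ (2 * i + 1))) ^ R.card)) ∧
      ∀ a : Fin r → 𝓞 K, (∀ k, Admissible (a k)) → InFamily D a →
        (∃ (F₀ : Type) (_ : Field F₀) (_ : NumberField F₀) (_ : Algebra K F₀) (η : Fin s → F₀),
          IsBase D.b F₀ η) ∧
        ∀ (F₀ : Type) [Field F₀] [NumberField F₀] [Algebra K F₀] (η : Fin s → F₀),
          IsBase D.b F₀ η → Module.finrank K F₀ = 3 ^ s ∧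
          (∃ (F : Type) (_ : Field F) (_ : NumberField F) (_ : Algebra K F) (_ : Algebra F₀ F)
            (_ : IsScalarTower K F₀ F) (θ : Fin r → F), IsExtension a F₀ F θ) ∧
          ∀ (F : Type) [Field F] [NumberField F] [Algebra K F] [Algebra F₀ F]
            [IsScalarTower K F₀ F] (θ : Fin r → F), IsExtension a F₀ F θ →
            Module.finrank F₀ F = 3 ^ r ∧
            ∃ Λ₀ Λ : ℂ → ℂ, Continues D.c F₀ Λ₀ ∧ Continues D.c F Λ ∧
              (NewTrivial D a → Stable r D F₀ F Λ₀ Λ) := by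
  have e : ∀ (r X : ℕ), number X (fun _ : Fin r → 𝓞 K => True) =
      ({a : Fin r → 𝓞 K | ∀ k, Algebra.norm ℤ (a k) ≤ X ∧ Admissible (a k)}.ncard : ℝ) := by
    intro r X
    unfold number
    simp only [and_true]
  refine ⟨Pool.Agent.XLK.t_C9.2.2.2.1, fun g s D hg hD r => ?_⟩
  obtain ⟨hc, hb, hind, hE⟩ := hD
  obtain ⟨c, b⟩ := D
  have hex : ∃ R : Finset (Index g s r), IsSystem ⟨c, b⟩ R := Run7.h707.TF.ex_sys
    (Run7.h707.TF.Rx (r := r) c b) Run7.h707.TF.rx_refl
    (Run7.h707.TF.rx_symm (fun t => Run7.h707.TE.ne_of_famO (hc t))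
      fun i => Run7.h707.TE.ne_of_famO (hb i))
  obtain ⟨R₀, hR₀⟩ := hex
  obtain ⟨h0, h1, h2, h3, h4⟩ := Run7.h707.TG.finA K r hc hb hind hE R₀ hR₀.1 hR₀.2
  refine ⟨?_, ?_, ?_, ⟨R₀, hR₀⟩, fun R hR => ?_, fun a ha hF => ⟨?_, fun F₀ _ _ _ η hη => ?_⟩⟩
  · rintro ⟨a, ha, haF⟩
    exact h0 ⟨a, ha, haF.1⟩
  · simp only [e]
    exact h1
  · unfold HasDensity
    simp only [e]
    exact h2
  · obtain ⟨-, -, -, h3', -⟩ := Run7.h707.TG.finA K r hc hb hind hE R hR.1 hR.2
    unfold HasDensity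
    simp only [e]
    exact h3'
  · obtain ⟨F, i1, i2, i3, θ, hθ, hgen⟩ := Run7.h707.TE.ex_F fun i => (b i : K)
    exact ⟨F, i1, i2, i3, θ, hθ, hgen⟩
  · have hexF : ∃ (F : Type) (_ : Field F) (_ : NumberField F) (_ : Algebra K F) (_ : Algebra F₀ F)
        (_ : IsScalarTower K F₀ F) (θ : Fin r → F), IsExtension a F₀ F θ := by
      obtain ⟨F, i1, i2, i3, θ, hθ, hgen⟩ := Run7.h707.TE.ex_F fun k => algebraMap K F₀ (a k : K)
      let i4 : Algebra K F := ((algebraMap F₀ F).comp (algebraMap K F₀)).toAlgebra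
      have i5 : IsScalarTower K F₀ F := IsScalarTower.of_algebraMap_eq fun x => rfl
      exact ⟨F, i1, i2, i4, i3, i5, θ, hθ, hgen⟩
    have hall := h4 a ha hF.1 hF.2 F₀ η hη
    have hfr : Module.finrank K F₀ = 3 ^ s := by
      obtain ⟨F, i1, i2, i3, i4, i5, θ, hθ⟩ := hexF
      exact ((hall F θ hθ).1 hg).1
    refine ⟨hfr, hexF, fun F _ _ _ _ _ θ hθ => ?_⟩
    obtain ⟨hd, L₀, L₁, l1, l2, l3, l4, l5⟩ := hall F θ hθ
    have hA : Differentiable ℂ fun s : ℂ => ∏ t, L₀ t s :=
      Differentiable.fun_finsetProd fun t _ => l1 t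
    have hB : Differentiable ℂ fun s : ℂ => ∏ t, L₁ t s :=
      Differentiable.fun_finsetProd fun t _ => l2 t
    refine ⟨(hd hg).2, fun s => ∏ t, L₀ t s, (fun s => ∏ t, L₀ t s) * fun s => ∏ t, L₁ t s,
      ⟨hA, fun s hs => Finset.prod_congr rfl fun t _ => l3 t s hs⟩,
      ⟨hA.mul hB, fun s hs => ?_⟩, fun hN => ?_⟩
    · rw [Pi.mul_apply, ← Finset.prod_mul_distrib]
      exact Finset.prod_congr rfl fun t _ => l4 t s hs
    · obtain ⟨h7, h8, h9⟩ := l5 hN
      have hz : analyticOrderAt (fun s : ℂ => ∏ t, L₁ t s) 1 = 0 :=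
        analyticOrderAt_eq_zero.2 (Or.inr (Finset.prod_ne_zero_iff.2 fun t _ => h7 t))
      have ho : analyticOrderAt ((fun s : ℂ => ∏ t, L₀ t s) * fun s => ∏ t, L₁ t s) 1 =
          analyticOrderAt (fun s : ℂ => ∏ t, L₀ t s) 1 := by
        rw [analyticOrderAt_mul (hA.analyticAt 1) (hB.analyticAt 1), hz, add_zero]
      have hr : Module.finrank ℤ (Points c F) = Module.finrank ℤ (Points c F₀) := by
        unfold Module.finrank
        exact congrArg Cardinal.toNat h8
      refine ⟨ho, h8, ?_, fun m hm t => h9 t m (hm t)⟩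
      unfold RankFormula
      rw [ho]
      show _ = ((Module.finrank ℤ (Points c F) : ℕ) : ℕ∞) ↔
        _ = ((Module.finrank ℤ (Points c F₀) : ℕ) : ℕ∞)
      rw [hr]

end Pool.Agent.Results.MP_1d384c_nt.ProductsOfAnyRank
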