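import Pool.Agent.Run7.h238.J.Av

/-!
# The Birch and Swinnerton-Dyer rank conjecture for the quadratic twists of products of `X_0(15)`,
# `X_0(21)` and `X_0(24)`, with exact natural densities

For `N = 15, 21, 24` let `E_{N,d}` be the quadratic twist by `d` of `X_0(N)`, an elliptic curve without
complex multiplication. A family of abelian varieties of dimension `g` is given by levels `N_i` and
multipliers `a_i` (squarefree, `a_i = 1` modulo `4`), `i = 1, ..., g`; its class consists of the
squarefree `n` such that every `a_i n` is in the residue classes of `N_i` (that is `23, 47` modulo `60`,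
`19, 31, 55` modulo `84`, `11` modulo `24`), in the natural order. The member of the family is
`A_n = ∏ E_{N_i, -a_i n}`, the quadratic twist by `-n` of the abelian variety `∏ E_{N_i, a_i}`.
* For `n` in the class, `A_n(ℚ)` is finite and `Ш(A_n/ℚ)[2^∞] = 0` if and only if the squarefree parts of
  all `a_i n` satisfy an elementary criterion, and then the complete Hasse-Weil `L`-function of `A_n` is
  entire and `ord_{s=1} L(s, A_n) = rank A_n(ℚ) = 0`.
* Let `η = ∏_{i ≥ 1} (1 - 2^{-i}) = 0.2888...` and let `S` be the set of the multipliers. For every subset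
  `T` of `S`, exactly the proportion `η^#T (1 - η)^(#S - #T)` of the class consists of the `n` for
  which the factors of `A_n` with finitely many points and with `Ш[2^∞] = 0` are those with `a_i ∈ T`.
* So the rank conjecture holds for `A_n`, with rank and order zero, for a proportion at least
  `0.2887^#S` of the class, which has positive density: for a positive proportion of all quadratic
  twists of `∏ E_{N_i, a_i}`, whatever the dimension `g`.

The proof uses, for each level, the complete 2-descent, the modular parametrization and an explicit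
formula of Gross (a period times the square of an integer whose parity is decided by the criterion),
and the joint law of the criteria for different multipliers, by the mixed moments of the kernels of
several Rédei systems and the equidistribution of the symbols in the natural order.
-/

set_option autoImplicit false

open Filter Topology

namespace Pool.Agent.Results.MP_1d384c_nt.ProductsOfTwistsJointLaw

open Pool.Agent.TH841.NF.D (Sha)
open WeierstrassCurve

/-- `M` is an integral Weierstrass equation of the elliptic curve `W` over `ℚ` -/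
def IsModel (W : WeierstrassCurve ℚ) (M : WeierstrassCurve ℤ) : Prop :=
  ∃ C : VariableChange ℚ, C • W = M.map (Int.castRingHom ℚ)

/-- the equation `M` is minimal at `p`: no integral equation of the same curve has a discriminant
with a smaller `p`-adic valuation -/
def MinAt (M : WeierstrassCurve ℤ) (p : ℕ) : Prop :=
  ∀ M' : WeierstrassCurve ℤ, IsModel (M.map (Int.castRingHom ℚ)) M' →
    padicValInt p M.Δ ≤ padicValInt p M'.Δ

/-- the number of solutions modulo `p` of the equation `M` -/
noncomputable def pts (M : WeierstrassCurve ℤ) (p : ℕ) : ℕ :=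
  Nat.card {z : ZMod p × ZMod p // z.2 ^ 2 + M.a₁ * z.1 * z.2 + M.a₃ * z.2 =
    z.1 ^ 3 + M.a₂ * z.1 ^ 2 + M.a₄ * z.1 + M.a₆}

/-- the Euler factor at `p` of the equation `M` (minimal at `p`) -/
noncomputable def euler (M : WeierstrassCurve ℤ) (p : ℕ) (s : ℂ) : ℂ :=
  (1 - ((p : ℂ) - pts M p) * (p : ℂ) ^ (-s) +
    if (p : ℤ) ∣ M.Δ then 0 else (p : ℂ) ^ (1 - 2 * s))⁻¹

/-- `L` is the `L`-function of the product of the elliptic curves `W i`: it is entire and, for
`Re s > 3/2`, the product over all primes `p` of the products of the Euler factors of the curves, computed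
with integral equations which are minimal at `p` -/
def IsLFunction {g : ℕ} (W : Fin g → WeierstrassCurve ℚ) (L : ℂ → ℂ) : Prop :=
  Differentiable ℂ L ∧ ∃ M : Fin g → Nat.Primes → WeierstrassCurve ℤ,
    (∀ (i : Fin g) (p : Nat.Primes), IsModel (W i) (M i p) ∧ MinAt (M i p) p) ∧
    ∀ s : ℂ, 3 / 2 < s.re →
      HasProd (fun p : Nat.Primes => ∏ i, euler (M i p) p s) (L s)

/-- the group of rational points of the product of the elliptic curves `W i` -/
abbrev Points {g : ℕ} (W : Fin g → WeierstrassCurve ℚ) : Type := ∀ i, (W i).toAffine.Point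

/-- the Birch and Swinnerton-Dyer rank conjecture for the product of the elliptic curves `W i`, with
order and rank zero -/
def OrderRankZero {g : ℕ} (W : Fin g → WeierstrassCurve ℚ) : Prop :=
  Finite (Points W) ∧ ∃ L : ℂ → ℂ, IsLFunction W L ∧ L 1 ≠ 0 ∧
    analyticOrderAt L 1 = Module.finrank ℤ (Points W) ∧ Module.finrank ℤ (Points W) = 0

/-- the product of the elliptic curves `W i` has finitely many rational points and the 2-primary part
of its Tate-Shafarevich group (the product of the groups of the `W i`) is trivial -/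
def TrivialTwo {g : ℕ} (W : Fin g → WeierstrassCurve ℚ) : Prop :=
  Finite (Points W) ∧ ∀ (k : ℕ) (x : ∀ i, Sha (W i)), 2 ^ k • x = 0 → x = 0

/-- `X_0(N) : y² = x (x + s) (x + t)` for `N = 15, 21, 24` -/
def st (N : ℕ) : ℤ × ℤ := if N = 15 then (-9, -25) else if N = 21 then (9, 16) else (1, 4)

/-- the quadratic twist by `d` of `X_0(N)`: `y² = x (x + s d) (x + t d)` -/
def E (N : ℕ) (d : ℤ) : WeierstrassCurve ℚ :=
  { a₁ := 0, a₂ := (((st N).1 + (st N).2) * d : ℤ), a₃ := 0, a₄ := ((st N).1 * (st N).2 * d ^ 2 : ℤ),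
    a₆ := 0 }

/-- the residue classes for the level `N` -/
def Residue (N m : ℕ) : Prop :=
  if N = 15 then m % 60 = 23 ∨ m % 60 = 47
  else if N = 21 then m % 84 = 19 ∨ m % 84 = 31 ∨ m % 84 = 55
  else m % 24 = 11

/-- the squarefree part of `a n`, for `a` and `n` squarefree -/
def tw (a n : ℕ) : ℕ := a * n / (Nat.gcd a n) ^ 2

/-- the class of the levels `N` and multipliers `a` -/
def Class {g : ℕ} (N a : Fin g → ℕ) (n : ℕ) : Prop :=
  Squarefree n ∧ ∀ i, Residue (N i) (a i * n)

/-- the levels `N` and the multipliers `a` define a family of abelian varieties of dimension `g` -/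
def IsFamily {g : ℕ} (N a : Fin g → ℕ) : Prop :=
  0 < g ∧ (∀ i, (N i = 15 ∨ N i = 21 ∨ N i = 24) ∧ Squarefree (a i) ∧ a i % 4 = 1) ∧
    ∃ n, Class N a n

/-- the member `∏ E_{N_i, -a_i n}` of the family -/
def A {g : ℕ} (N a : Fin g → ℕ) (n : ℕ) : Fin g → WeierstrassCurve ℚ :=
  fun i => E (N i) (-(tw (a i) n : ℤ))

/-- the factor with level `N` and multiplier `a` -/
def A₁ (N a n : ℕ) : Fin 1 → WeierstrassCurve ℚ := fun _ => E N (-(tw a n : ℤ))

/-- the set of the multipliers -/
def mults {g : ℕ} (a : Fin g → ℕ) : Finset ℕ := Finset.univ.image a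

/-- whenever `b c = m`, where `b` is a square modulo all primes dividing `c` and `c` is a square modulo
all primes dividing `b`, then `b = 1` or `c = 1` -/
def Criterion (m : ℕ) : Prop :=
  ∀ b c : ℕ, b * c = m → (∀ p : ℕ, p.Prime → p ∣ c → IsSquare (b : ZMod p)) →
    (∀ p : ℕ, p.Prime → p ∣ b → IsSquare (c : ZMod p)) → b = 1 ∨ c = 1

/-- the number of the `n ≤ X` of the class with the property `Q` -/
noncomputable def num {g : ℕ} (N a : Fin g → ℕ) (Q : ℕ → Prop) (X : ℕ) : ℕ :=
  Nat.card {n : ℕ // n ≤ X ∧ Class N a n ∧ Q n}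

/-- the constant `0.2888...` -/
noncomputable def η : ℝ := ∏' i : ℕ, (1 - (1 / 2 : ℝ) ^ (i + 1))

section proof

open Pool.Agent.N969.P15 (Qc)
open Pool.Agent.Run7.h238.J

theorem sq_iff {p : ℕ} (hp : p.Prime) {b : ℕ} (hb : ¬ p ∣ b) :
    jacobiSym b p = 1 ↔ IsSquare (b : ZMod p) := by
  have : Fact p.Prime := ⟨hp⟩
  have h0 : ((b : ℤ) : ZMod p) ≠ 0 := by
    rw [Int.cast_natCast]
    intro h
    exact hb ((ZMod.natCast_eq_zero_iff b p).1 h)
  rw [← jacobiSym.legendreSym.to_jacobiSym, legendreSym.eq_one_iff p h0, Int.cast_natCast]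

theorem crit_iff {n : ℕ} (h : Squarefree n) : Criterion n ↔ Qc n := by
  have key : ∀ b c : ℕ, b * c = n →
      (((∀ p : ℕ, p.Prime → p ∣ c → IsSquare (b : ZMod p)) ↔
        (∀ p ∈ c.primeFactors, jacobiSym b p = 1)) ∧
      ((∀ p : ℕ, p.Prime → p ∣ b → IsSquare (c : ZMod p)) ↔
        (∀ p ∈ b.primeFactors, jacobiSym c p = 1))) := by
    intro b c hbc
    have hc0 : c ≠ 0 := by
      rintro rfl
      rw [mul_zero] at hbc
      exact h.ne_zero hbc.symm
    have hb0 : b ≠ 0 := by
      rintro rfl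
      rw [zero_mul] at hbc
      exact h.ne_zero hbc.symm
    have hco : b.Coprime c := by
      rw [← hbc] at h
      exact (Nat.squarefree_mul_iff.1 h).1
    constructor
    · constructor
      · intro h1 p hp
        have hp' := Nat.prime_of_mem_primeFactors hp
        have hd := Nat.dvd_of_mem_primeFactors hp
        refine (sq_iff hp' fun hpb => ?_).2 (h1 p hp' hd)
        exact hp'.one_lt.ne' (Nat.eq_one_of_dvd_coprimes hco hpb hd)
      · intro h1 p hp' hd
        refine (sq_iff hp' fun hpb => ?_).1 (h1 p (Nat.mem_primeFactors.2 ⟨hp', hd, hc0⟩))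
        exact hp'.one_lt.ne' (Nat.eq_one_of_dvd_coprimes hco hpb hd)
    · constructor
      · intro h1 p hp
        have hp' := Nat.prime_of_mem_primeFactors hp
        have hd := Nat.dvd_of_mem_primeFactors hp
        refine (sq_iff hp' fun hpb => ?_).2 (h1 p hp' hd)
        exact hp'.one_lt.ne' (Nat.eq_one_of_dvd_coprimes hco hd hpb)
      · intro h1 p hp' hd
        refine (sq_iff hp' fun hpb => ?_).1 (h1 p (Nat.mem_primeFactors.2 ⟨hp', hd, hb0⟩))
        exact hp'.one_lt.ne' (Nat.eq_one_of_dvd_coprimes hco hd hpb)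
  constructor
  · intro h1 b c hbc h2 h3
    exact h1 b c hbc ((key b c hbc).1.2 h2) ((key b c hbc).2.2 h3)
  · intro h1 b c hbc h2 h3
    exact h1 b c hbc ((key b c hbc).1.1 h2) ((key b c hbc).2.1 h3)

/-- the set of the pairs -/
def fam {g : ℕ} (N a : Fin g → ℕ) : Finset (ℕ × ℕ) := Finset.univ.image fun i => (N i, a i)

theorem mem_fam {g : ℕ} {N a : Fin g → ℕ} {p : ℕ × ℕ} :
    p ∈ fam N a ↔ ∃ i, (N i, a i) = p := by
  unfold fam
  simp

theorem com_iff {g : ℕ} {N a : Fin g → ℕ} {n : ℕ} :
    Mix.Com (fam N a) n ↔ ∀ i, Residue (N i) (a i * n) := by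
  unfold Mix.Com
  constructor
  · intro h i
    exact h (N i, a i) (mem_fam.2 ⟨i, rfl⟩)
  · rintro h p hp
    obtain ⟨i, rfl⟩ := mem_fam.1 hp
    exact h i

theorem fam_ne {g : ℕ} {N a : Fin g → ℕ} (h : 0 < g) : (fam N a).Nonempty :=
  ⟨_, mem_fam.2 ⟨⟨0, h⟩, rfl⟩⟩

theorem good {g : ℕ} {N a : Fin g → ℕ} (h : IsFamily N a) : Mix.Good (fam N a) := by
  refine ⟨fam_ne h.1, ?_, ?_⟩
  · intro p hp
    obtain ⟨i, rfl⟩ := mem_fam.1 hp
    exact h.2.1 i
  · obtain ⟨n, hn⟩ := h.2.2
    exact Mix.com_cop (fam_ne h.1) (com_iff.2 hn.2)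

theorem fam_snd {g : ℕ} (N a : Fin g → ℕ) : (fam N a).image Prod.snd = mults a := by
  unfold fam mults
  rw [Finset.image_image]
  rfl

/-- the factors: criterion -/
theorem triv_iff {g : ℕ} {N a : Fin g → ℕ} (h : IsFamily N a) {n : ℕ} (hn : Class N a n)
    (i : Fin g) : Mix.Triv (N i) (-(tw (a i) n : ℤ)) ↔ Criterion (tw (a i) n) := by
  have h1 := h.2.1 i
  have hs := (Pool.Agent.Run7.h424.J.tw_spec h1.2.1 hn.1).1
  have e : tw (a i) n = Pool.Agent.Run7.h238.J.tw (a i) n := rfl
  rw [e, crit_iff hs]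
  exact Mix.triv_iff h1.1 hs (Mix.cls_tw h1.2.1 hn.1 (hn.2 i))

theorem finite_points {g : ℕ} {W : Fin g → WeierstrassCurve ℚ} :
    Finite (Points W) ↔ ∀ i, Finite (W i).toAffine.Point := by
  constructor
  · intro h i
    exact Finite.of_surjective _ (Function.surjective_eval (α := Fin g)
      (β := fun i => (W i).toAffine.Point) i)
  · intro h
    exact Pi.finite

theorem pi_two {g : ℕ} {G : Fin g → Type} [∀ i, AddCommGroup (G i)] :
    (∀ (k : ℕ) (x : ∀ i, G i), 2 ^ k • x = 0 → x = 0) ↔
      ∀ i, ∀ (k : ℕ) (x : G i), 2 ^ k • x = 0 → x = 0 := by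
  constructor
  · intro h2 i k x hx
    have h3 := h2 k (Pi.single i x) (by
      rw [← Pi.single_smul, hx]
      exact Pi.single_zero i)
    have h4 := congrFun h3 i
    rw [Pi.single_eq_same] at h4
    exact h4
  · intro h k x hx
    funext i
    exact h i k (x i) (congrFun hx i)

theorem trivialTwo_iff {g : ℕ} {N a : Fin g → ℕ} {n : ℕ} :
    TrivialTwo (A N a n) ↔ ∀ i, Mix.Triv (N i) (-(tw (a i) n : ℤ)) := by
  unfold TrivialTwo
  rw [finite_points, pi_two, ← forall_and]
  exact Iff.rfl

theorem finrank_zero_of {M : Type} [AddCommGroup M] [Module ℤ M] [Finite M] :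
    Module.finrank ℤ M = 0 := by
  refine Module.finrank_eq_zero_of_rank_eq_zero ?_
  rw [rank_eq_zero_iff]
  intro x
  refine ⟨(addOrderOf x : ℤ), by exact_mod_cast (addOrderOf_pos x).ne', ?_⟩
  have h := addOrderOf_nsmul_eq_zero x
  rw [← h]
  exact (Nat.cast_smul_eq_nsmul ℤ _ _)

/-- the rank form from the criterion -/
theorem rank_of {g : ℕ} {N a : Fin g → ℕ} (h : IsFamily N a) {n : ℕ} (hn : Class N a n)
    (hc : TrivialTwo (A N a n)) : OrderRankZero (A N a n) := by
  have hc' := trivialTwo_iff.1 hc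
  have hL : ∀ i, ∃ L : ℂ → ℂ, Run7.h238.G15.IsLFunction (A N a n i) L ∧ L 1 ≠ 0 := by
    intro i
    have h1 := h.2.1 i
    have hs := (Pool.Agent.Run7.h424.J.tw_spec h1.2.1 hn.1).1
    have hq := (crit_iff hs).1 ((triv_iff h hn i).1 (hc' i))
    exact Mix.exists_L h1.1 hs (Mix.cls_tw h1.2.1 hn.1 (hn.2 i)) hq
  choose L hL h1 using hL
  choose hd M hM hp using hL
  have hfin : Finite (Points (A N a n)) := hc.1
  have hr : Module.finrank ℤ (Points (A N a n)) = 0 := finrank_zero_of
  have hdiff : Differentiable ℂ fun s => ∏ i, L i s :=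
    Differentiable.fun_finsetProd fun i _ => hd i
  have hne : (∏ i, L i 1) ≠ 0 := Finset.prod_ne_zero_iff.2 fun i _ => h1 i
  refine ⟨hfin, fun s => ∏ i, L i s, ⟨hdiff, M, hM, fun s hs => ?_⟩, hne, ?_, hr⟩
  · exact hasProd_prod fun i _ => hp i s hs
  · rw [hr, Nat.cast_zero]
    exact (hdiff.analyticAt 1).analyticOrderAt_eq_zero.2 hne

theorem triv_one {N a n : ℕ} : TrivialTwo (A₁ N a n) ↔ Mix.Triv N (-(tw a n : ℤ)) := by
  unfold TrivialTwo
  rw [finite_points, pi_two, ← forall_and]
  exact ⟨fun h => h 0, fun h _ => h⟩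

theorem num_eq {g : ℕ} (N a : Fin g → ℕ) (Q : ℕ → Prop)
    [DecidablePred fun n : ℕ => Class N a n ∧ Q n] (X : ℕ) :
    num N a Q X = ((Finset.Icc 1 X).filter fun n => Class N a n ∧ Q n).card := by
  unfold num
  refine Nat.subtype_card _ fun n => ?_
  rw [Finset.mem_filter, Finset.mem_Icc]
  constructor
  · rintro ⟨⟨_, h1⟩, h2⟩
    exact ⟨h1, h2⟩
  · rintro ⟨h1, h2, h3⟩
    exact ⟨⟨Nat.pos_of_ne_zero h2.1.ne_zero, h1⟩, h2, h3⟩

theorem num_mono {g : ℕ} (N a : Fin g → ℕ) {P Q : ℕ → Prop} (h : ∀ n, Class N a n → P n → Q n)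
    (X : ℕ) : num N a P X ≤ num N a Q X := by
  classical
  rw [num_eq, num_eq]
  refine Finset.card_le_card fun n hn => ?_
  rw [Finset.mem_filter] at hn ⊢
  exact ⟨hn.1, hn.2.1, h n hn.2.1 hn.2.2⟩

/-- **The joint law.** -/
theorem law {g : ℕ} {N a : Fin g → ℕ} (h : IsFamily N a) {T : Finset ℕ} (hT : T ⊆ mults a) :
    Tendsto (fun X : ℕ => (num N a (fun n => ∀ i, (TrivialTwo (A₁ (N i) (a i) n) ↔ a i ∈ T)) X : ℝ) /
      (num N a (fun _ => True) X : ℝ)) atTop
      (𝓝 (η ^ T.card * (1 - η) ^ ((mults a).card - T.card))) := by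
  classical
  have h0 := Mix.law (good h) (T := T) (by rw [fam_snd]; exact hT)
  rw [fam_snd, Finset.card_sdiff_of_subset hT] at h0
  have hη : Pool.Agent.N916.GB.eta = η := rfl
  rw [hη] at h0
  refine h0.congr fun X => ?_
  have e1 : ((Finset.Icc 1 X).filter fun n => Squarefree n ∧ Mix.Com (fam N a) n ∧
      ∀ p ∈ fam N a, (Mix.Triv p.1 (-(Pool.Agent.Run7.h238.J.tw p.2 n : ℤ)) ↔ p.2 ∈ T)) =
      (Finset.Icc 1 X).filter fun n => Class N a n ∧
        ∀ i, (TrivialTwo (A₁ (N i) (a i) n) ↔ a i ∈ T) := by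
    refine Finset.filter_congr fun n _ => ?_
    constructor
    · rintro ⟨h1, h2, h3⟩
      refine ⟨⟨h1, com_iff.1 h2⟩, fun i => ?_⟩
      rw [triv_one]
      exact h3 (N i, a i) (mem_fam.2 ⟨i, rfl⟩)
    · rintro ⟨⟨h1, h2⟩, h3⟩
      refine ⟨h1, com_iff.2 h2, fun p hp => ?_⟩
      obtain ⟨i, rfl⟩ := mem_fam.1 hp
      have h4 := h3 i
      rw [triv_one] at h4
      exact h4
  have e2 : ((Finset.Icc 1 X).filter fun n => Squarefree n ∧ Mix.Com (fam N a) n) =
      (Finset.Icc 1 X).filter fun n => Class N a n ∧ True := by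
    refine Finset.filter_congr fun n _ => ?_
    constructor
    · rintro ⟨h1, h2⟩
      exact ⟨⟨h1, com_iff.1 h2⟩, trivial⟩
    · rintro ⟨⟨h1, h2⟩, _⟩
      exact ⟨h1, com_iff.2 h2⟩
  rw [num_eq, num_eq, ← e1, ← e2]

theorem all_iff {g : ℕ} {N a : Fin g → ℕ} {n : ℕ} :
    (∀ i, (TrivialTwo (A₁ (N i) (a i) n) ↔ a i ∈ mults a)) ↔ TrivialTwo (A N a n) := by
  rw [trivialTwo_iff]
  have hm : ∀ i, a i ∈ mults a := fun i => Finset.mem_image_of_mem _ (Finset.mem_univ i)
  constructor
  · intro h i
    exact triv_one.1 ((h i).2 (hm i))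
  · intro h i
    exact ⟨fun _ => hm i, fun _ => triv_one.2 (h i)⟩

theorem law_all {g : ℕ} {N a : Fin g → ℕ} (h : IsFamily N a) :
    Tendsto (fun X : ℕ => (num N a (fun n => TrivialTwo (A N a n)) X : ℝ) /
      (num N a (fun _ => True) X : ℝ)) atTop (𝓝 (η ^ (mults a).card)) := by
  have h0 := law h (Finset.Subset.refl _)
  rw [Nat.sub_self, pow_zero, mul_one] at h0
  refine h0.congr fun X => ?_
  have e : (fun n => ∀ i, (TrivialTwo (A₁ (N i) (a i) n) ↔ a i ∈ mults a)) =
      fun n => TrivialTwo (A N a n) := by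
    funext n
    exact propext all_iff
  rw [e]

theorem class_pos {g : ℕ} {N a : Fin g → ℕ} (h : IsFamily N a) : ∃ c : ℝ, 0 < c ∧
    ∀ᶠ X : ℕ in atTop, c * X ≤ (num N a (fun _ => True) X : ℝ) := by
  classical
  obtain ⟨c, hc, h1⟩ := Mix.class_pos (good h)
  refine ⟨c, hc, ?_⟩
  filter_upwards [h1] with X hX
  refine hX.trans (le_of_eq ?_)
  rw [num_eq]
  have e2 : ((Finset.Icc 1 X).filter fun n => Squarefree n ∧ Mix.Com (fam N a) n) =
      (Finset.Icc 1 X).filter fun n => Class N a n ∧ True := by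
    refine Finset.filter_congr fun n _ => ?_
    constructor
    · rintro ⟨h1, h2⟩
      exact ⟨⟨h1, com_iff.1 h2⟩, trivial⟩
    · rintro ⟨⟨h1, h2⟩, _⟩
      exact ⟨h1, com_iff.2 h2⟩
  rw [← e2]

end proof

/-- the levels of the example -/
def N₃ : Fin 3 → ℕ := ![15, 24, 21]

/-- the multipliers of the example -/
def a₃ : Fin 3 → ℕ := ![1, 1, 5]

theorem family_ex : IsFamily N₃ a₃ := by
  refine ⟨by norm_num, ?_, ?_⟩
  · intro i
    fin_cases i
    · exact ⟨Or.inl rfl, squarefree_one, rfl⟩
    · exact ⟨Or.inr (Or.inr rfl), squarefree_one, rfl⟩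
    · exact ⟨Or.inr (Or.inl rfl), Nat.prime_five.squarefree, rfl⟩
  · refine ⟨107, (show Nat.Prime 107 by norm_num).squarefree, ?_⟩
    intro i
    fin_cases i
    · show Residue 15 (1 * 107)
      unfold Residue
      norm_num
    · show Residue 24 (1 * 107)
      unfold Residue
      norm_num
    · show Residue 21 (5 * 107)
      unfold Residue
      norm_num

/-- **The rank conjecture for products of quadratic twists of `X_0(15)`, `X_0(21)`, `X_0(24)`, with exact
natural densities.** -/
theorem result :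
    (∀ (g : ℕ) (N a : Fin g → ℕ) (n : ℕ), IsFamily N a → Class N a n →
      (TrivialTwo (A N a n) ↔ ∀ i, Criterion (tw (a i) n)) ∧
      (TrivialTwo (A N a n) → OrderRankZero (A N a n))) ∧
    (∀ (g : ℕ) (N a : Fin g → ℕ), IsFamily N a →
      (∀ T ⊆ mults a, Tendsto (fun X : ℕ =>
        (num N a (fun n => ∀ i, (TrivialTwo (A₁ (N i) (a i) n) ↔ a i ∈ T)) X : ℝ) /
          (num N a (fun _ => True) X : ℝ)) atTop
        (𝓝 (η ^ T.card * (1 - η) ^ ((mults a).card - T.card)))) ∧
      Tendsto (fun X : ℕ => (num N a (fun n => TrivialTwo (A N a n)) X : ℝ) /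
        (num N a (fun _ => True) X : ℝ)) atTop (𝓝 (η ^ (mults a).card)) ∧
      (∀ᶠ X : ℕ in atTop, 0.2887 ^ (mults a).card * (num N a (fun _ => True) X : ℝ) ≤
        (num N a (fun n => OrderRankZero (A N a n)) X : ℝ)) ∧
      ∃ c : ℝ, 0 < c ∧ ∀ᶠ X : ℕ in atTop,
        c * X ≤ (num N a (fun n => OrderRankZero (A N a n)) X : ℝ)) ∧
    0.2887 < η ∧ η < 0.2889 ∧
    IsFamily N₃ a₃ ∧ (mults a₃).card = 2 := by
  classical
  have hη1 : 0.2887 < η := Pool.Agent.N916.GB.eta_bounds.1
  have hη2 : η < 0.2889 := Pool.Agent.N916.GB.eta_bounds.2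
  refine ⟨?_, ?_, hη1, hη2, family_ex, by decide⟩
  · intro g N a n h hn
    refine ⟨?_, rank_of h hn⟩
    rw [trivialTwo_iff]
    exact forall_congr' fun i => triv_iff h hn i
  · intro g N a h
    have hlow : ∀ᶠ X : ℕ in atTop, 0.2887 ^ (mults a).card * (num N a (fun _ => True) X : ℝ) ≤
        (num N a (fun n => OrderRankZero (A N a n)) X : ℝ) := by
      have h0 := law_all h
      have hne : (mults a).card ≠ 0 := by
        rw [Finset.card_ne_zero]
        exact ⟨_, Finset.mem_image_of_mem _ (Finset.mem_univ ⟨0, h.1⟩)⟩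
      have hlt : (0.2887 : ℝ) ^ (mults a).card < η ^ (mults a).card :=
        pow_lt_pow_left₀ hη1 (by norm_num) hne
      have h1 := h0.eventually (lt_mem_nhds hlt)
      filter_upwards [h1] with X hX
      have h2 : (num N a (fun n => TrivialTwo (A N a n)) X : ℝ) ≤
          (num N a (fun n => OrderRankZero (A N a n)) X : ℝ) := by
        exact_mod_cast num_mono N a (P := fun n => TrivialTwo (A N a n))
          (Q := fun n => OrderRankZero (A N a n)) (fun n hn ht => rank_of h hn ht) X
      have h3 : (0 : ℝ) < (num N a (fun _ => True) X : ℝ) := by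
        rcases Nat.eq_zero_or_pos (num N a (fun _ => True) X) with h | h
        · rw [h, Nat.cast_zero, div_zero] at hX
          have : (0 : ℝ) < 0.2887 ^ (mults a).card := by positivity
          linarith
        · exact_mod_cast h
      have h4 := (lt_div_iff₀ h3).1 hX
      linarith
    refine ⟨fun T hT => law h hT, law_all h, hlow, ?_⟩
    obtain ⟨c, hc, h1⟩ := class_pos h
    refine ⟨0.2887 ^ (mults a).card * c, by positivity, ?_⟩
    filter_upwards [h1, hlow] with X hX hX'
    refine le_trans ?_ hX'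
    rw [mul_assoc]
    exact mul_le_mul_of_nonneg_left hX (by positivity)

end Pool.Agent.Results.MP_1d384c_nt.ProductsOfTwistsJointLaw
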